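import Pool.Agent.TH665.Roh.Tables

/-!
# The finite check of the certificate
-/

set_option autoImplicit false
set_option maxRecDepth 100000

namespace Pool.Agent.TH665.Roh

/-- dot product -/
def dot : List ℤ → List ℤ → ℤ
  | [], _ => 0
  | _ :: _, [] => 0
  | a :: as, b :: bs => a * b + dot as bs

/-- pointwise product -/
def scl : List ℤ → List ℤ → List ℤ
  | [], _ => []
  | _ :: _, [] => []
  | a :: as, b :: bs => (a * b) :: scl as bs

/-- node conditions for one row -/
def nodeChk : List ℤ → List ℤ → Bool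
  | [], _ => true
  | r :: rs, [] => decide (0 ≤ r) && nodeChk rs []
  | r :: rs, w :: ws => decide (0 ≤ r) && decide (w ≤ r) && nodeChk rs ws

/-- cell conditions for two adjacent rows -/
def cellChk : List ℤ → List ℤ → List ℤ → Bool
  | a0 :: a1 :: as, b0 :: b1 :: bs, _ :: w1 :: w2 :: ws =>
    decide (4 * w1 ≤ a0 + b1 + 2 * b0) && decide (4 * w1 ≤ a0 + b1 + 2 * a1) &&
      cellChk (a1 :: as) (b1 :: bs) (w1 :: w2 :: ws)
  | a0 :: a1 :: _, b0 :: b1 :: _, [_, w1] =>
    decide (4 * w1 ≤ a0 + b1 + 3 * b0 - a1) && decide (4 * w1 ≤ a0 + b1 + 3 * a1 - b0)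
  | _, _, _ => true

/-- all conditions -/
def chkAux : List (List ℤ) → List ℤ → Bool
  | r0 :: r1 :: rs, w0 :: ws =>
    nodeChk r0 (w0 :: ws) && cellChk r0 r1 (w0 :: ws) && chkAux (r1 :: rs) ws
  | [r0], w => nodeChk r0 w
  | _, _ => true

/-- the matrix -/
def rows : List (List ℤ) := V.map fun u => V.map (dot (scl Dg u))

set_option linter.style.nativeDecide false in
theorem chk : chkAux rows Wt = true := by decide +kernel

end Pool.Agent.TH665.Roh
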