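import Pool.Agent.TH665.Roh.Trig

/-!
# Piecewise linear interpolation
-/

set_option autoImplicit false
set_option maxRecDepth 100000

namespace Pool.Agent.TH665.Roh

/-- table entries -/
def v (i q : ℕ) : ℤ := (V.getD i []).getD q 0

lemma tab_chk : ∀ i < 81, ∀ t < 5,
    |100000 * v i (2 * t + 1) - a9 (((t + 1) * i) % 80)| ≤ 60000 ∧
    |100000 * v i (2 * t + 2) - b9 (((t + 1) * i) % 80)| ≤ 60000 := by
  decide +kernel

/-- linear interpolation of `f` at `a / M` -/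
noncomputable def L (f : ℕ → ℝ) (M a : ℕ) : ℝ :=
  (1 - ((a % M : ℕ) : ℝ) / M) * f (a / M) + ((a % M : ℕ) : ℝ) / M * f (a / M + 1)

lemma L_rep {M : ℕ} (hM : 0 < M) {a : ℕ} (ha : a ≤ 80 * M) :
    ∃ (i : ℕ) (θ : ℝ), i < 80 ∧ 0 ≤ θ ∧ θ ≤ 1 ∧ (a : ℝ) = (i + θ) * M ∧
      ∀ f : ℕ → ℝ, L f M a = (1 - θ) * f i + θ * f (i + 1) := by
  have hMR : (0 : ℝ) < M := by exact_mod_cast hM
  rcases ha.lt_or_eq with h | h
  · refine ⟨a / M, ((a % M : ℕ) : ℝ) / M, Nat.div_lt_of_lt_mul (by linarith), by positivity, ?_, ?_,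
      fun f => rfl⟩
    · rw [div_le_one hMR]
      exact_mod_cast (Nat.mod_lt a hM).le
    · field_simp
      have := Nat.div_add_mod a M
      have h2 : ((M * (a / M) + a % M : ℕ) : ℝ) = a := by rw [this]
      push_cast at h2
      linarith
  · refine ⟨79, 1, by norm_num, by norm_num, by norm_num, ?_, fun f => ?_⟩
    · rw [h]; push_cast; ring
    · have h1 : a / M = 80 := by rw [h]; exact Nat.mul_div_cancel _ hM
      have h2 : a % M = 0 := by rw [h]; exact Nat.mul_mod_left _ _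
      unfold L
      rw [h1, h2]
      push_cast
      simp

lemma der_cos : deriv (fun y : ℝ => y ^ 2 / 2 + Real.cos y) = fun y => y - Real.sin y := by
  ext y
  have h := ((hasDerivAt_pow 2 y).div_const 2).add (Real.hasDerivAt_cos y)
  have h2 : deriv (fun y : ℝ => y ^ 2 / 2 + Real.cos y) y =
    ((2 : ℕ) : ℝ) * y ^ (2 - 1) / 2 + -Real.sin y := h.deriv
  rw [h2]
  norm_num
  ring

lemma der_neg_cos : deriv (fun y : ℝ => y ^ 2 / 2 - Real.cos y) = fun y => y + Real.sin y := by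
  ext y
  have h := ((hasDerivAt_pow 2 y).div_const 2).sub (Real.hasDerivAt_cos y)
  have h2 : deriv (fun y : ℝ => y ^ 2 / 2 - Real.cos y) y =
    ((2 : ℕ) : ℝ) * y ^ (2 - 1) / 2 - -Real.sin y := h.deriv
  rw [h2]
  norm_num

lemma conv_cos : ConvexOn ℝ Set.univ (fun y : ℝ => y ^ 2 / 2 + Real.cos y) := by
  apply convexOn_univ_of_deriv2_nonneg
  · fun_prop
  · rw [der_cos]; fun_prop
  · intro y
    have h2 : deriv (fun y : ℝ => y - Real.sin y) y = 1 - Real.cos y :=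
      ((hasDerivAt_id y).sub (Real.hasDerivAt_sin y)).deriv
    simp only [Function.iterate_succ, Function.iterate_zero, Function.comp_apply, id]
    rw [der_cos, h2]
    linarith [Real.cos_le_one y]

lemma conv_neg_cos : ConvexOn ℝ Set.univ (fun y : ℝ => y ^ 2 / 2 - Real.cos y) := by
  apply convexOn_univ_of_deriv2_nonneg
  · fun_prop
  · rw [der_neg_cos]; fun_prop
  · intro y
    have h2 : deriv (fun y : ℝ => y + Real.sin y) y = 1 + Real.cos y :=
      ((hasDerivAt_id y).add (Real.hasDerivAt_sin y)).deriv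
    simp only [Function.iterate_succ, Function.iterate_zero, Function.comp_apply, id]
    rw [der_neg_cos, h2]
    linarith [Real.neg_one_le_cos y]

lemma interp_cos (u δ θ : ℝ) (h0 : 0 ≤ θ) (h1 : θ ≤ 1) :
    |((1 - θ) * Real.cos u + θ * Real.cos (u + δ)) - Real.cos (u + θ * δ)| ≤ δ ^ 2 / 8 := by
  have e : (1 - θ) • u + θ • (u + δ) = u + θ * δ := by simp only [smul_eq_mul]; ring
  have c1 := conv_cos.2 (Set.mem_univ u) (Set.mem_univ (u + δ)) (sub_nonneg.mpr h1) h0 (by ring)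
  have c2 := conv_neg_cos.2 (Set.mem_univ u) (Set.mem_univ (u + δ)) (sub_nonneg.mpr h1) h0 (by ring)
  rw [e] at c1 c2
  simp only [smul_eq_mul] at c1 c2
  have h2 : θ * (1 - θ) ≤ 1 / 4 := by nlinarith [sq_nonneg (2 * θ - 1)]
  have h3 : θ * (1 - θ) * δ ^ 2 ≤ 1 / 4 * δ ^ 2 := mul_le_mul_of_nonneg_right h2 (sq_nonneg _)
  rw [abs_le]
  constructor <;> nlinarith

lemma interp_sin (u δ θ : ℝ) (h0 : 0 ≤ θ) (h1 : θ ≤ 1) :
    |((1 - θ) * Real.sin u + θ * Real.sin (u + δ)) - Real.sin (u + θ * δ)| ≤ δ ^ 2 / 8 := by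
  have h := interp_cos (u - Real.pi / 2) δ θ h0 h1
  rw [show u - Real.pi / 2 + δ = (u + δ) - Real.pi / 2 by ring,
    show u - Real.pi / 2 + θ * δ = (u + θ * δ) - Real.pi / 2 by ring,
    Real.cos_sub_pi_div_two, Real.cos_sub_pi_div_two, Real.cos_sub_pi_div_two] at h
  exact h

lemma angle_mod (k : ℕ) :
    Real.cos ((k % 80 : ℕ) * (Real.pi / 40)) = Real.cos (k * (Real.pi / 40)) ∧
    Real.sin ((k % 80 : ℕ) * (Real.pi / 40)) = Real.sin (k * (Real.pi / 40)) := by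
  have h : (k : ℝ) * (Real.pi / 40) = ((k % 80 : ℕ) : ℝ) * (Real.pi / 40) +
      ((k / 80 : ℕ) : ℝ) * (2 * Real.pi) := by
    have h1 : ((80 * (k / 80) + k % 80 : ℕ) : ℝ) = k := by rw [Nat.div_add_mod]
    push_cast at h1
    rw [← h1]
    ring
  rw [h]
  exact ⟨(Real.cos_add_nat_mul_two_pi _ _).symm, (Real.sin_add_nat_mul_two_pi _ _).symm⟩

lemma v_node (i t : ℕ) (hi : i ≤ 80) (ht : t < 5) :
    |(v i (2 * t + 1) : ℝ) / 10000 - Real.cos (i * ((t + 1) * (Real.pi / 40)))| ≤ 1 / 10000 ∧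
    |(v i (2 * t + 2) : ℝ) / 10000 - Real.sin (i * ((t + 1) * (Real.pi / 40)))| ≤ 1 / 10000 := by
  have h := tab_chk i (by omega) t ht
  have h1 : |(100000 * (v i (2 * t + 1) : ℝ) - a9 (((t + 1) * i) % 80))| ≤ 60000 := by
    exact_mod_cast h.1
  have h2 : |(100000 * (v i (2 * t + 2) : ℝ) - b9 (((t + 1) * i) % 80))| ≤ 60000 := by
    exact_mod_cast h.2
  have h3 := node_close (((t + 1) * i) % 80) (by have := Nat.mod_lt ((t + 1) * i) (by norm_num : 0 < 80); omega)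
  have h4 := angle_mod ((t + 1) * i)
  rw [h4.1, h4.2] at h3
  have e : (((t + 1) * i : ℕ) : ℝ) * (Real.pi / 40) = i * ((t + 1) * (Real.pi / 40)) := by
    push_cast; ring
  rw [e] at h3
  rw [abs_le] at h1 h2
  have h5 := abs_le.mp h3.1
  have h6 := abs_le.mp h3.2
  constructor
  · rw [abs_le]; constructor <;> norm_num at h5 ⊢ <;> linarith [h1.1, h1.2, h5.1, h5.2]
  · rw [abs_le]; constructor <;> norm_num at h6 ⊢ <;> linarith [h2.1, h2.2, h6.1, h6.2]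

/-- interpolated coordinate functions -/
noncomputable def Lv (M a q : ℕ) : ℝ := L (fun i => (v i q : ℝ)) M a

lemma err_aux {p q A B θ ε : ℝ} (h0 : 0 ≤ θ) (h1 : θ ≤ 1) (hp : |p - A| ≤ ε) (hq : |q - B| ≤ ε) :
    |((1 - θ) * p + θ * q) - ((1 - θ) * A + θ * B)| ≤ ε := by
  have e : ((1 - θ) * p + θ * q) - ((1 - θ) * A + θ * B) = (1 - θ) * (p - A) + θ * (q - B) := by ring
  rw [e]
  refine (abs_add_le _ _).trans ?_
  rw [abs_mul, abs_mul, abs_of_nonneg h0, abs_of_nonneg (sub_nonneg.mpr h1)]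
  have h3 : (1 - θ) * |p - A| ≤ (1 - θ) * ε := mul_le_mul_of_nonneg_left hp (sub_nonneg.mpr h1)
  have h4 : θ * |q - B| ≤ θ * ε := mul_le_mul_of_nonneg_left hq h0
  linarith

lemma L_trig {M : ℕ} (hM : 0 < M) {a : ℕ} (ha : a ≤ 80 * M) (t : ℕ) (ht : t < 5) :
    |Lv M a (2 * t + 1) / 10000 - Real.cos (a * ((t + 1) * (2 * Real.pi / (80 * M : ℕ))))| ≤
      (78 * ((t : ℝ) + 1) ^ 2 + 10) / 100000 ∧
    |Lv M a (2 * t + 2) / 10000 - Real.sin (a * ((t + 1) * (2 * Real.pi / (80 * M : ℕ))))| ≤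
      (78 * ((t : ℝ) + 1) ^ 2 + 10) / 100000 := by
  obtain ⟨i, θ, hi, h0, h1, hz, hL⟩ := L_rep hM ha
  have hMR : (0 : ℝ) < M := by exact_mod_cast hM
  have n0 := v_node i t (by omega) ht
  have n1 := v_node (i + 1) t (by omega) ht
  set δ : ℝ := (t + 1) * (Real.pi / 40) with hδ
  have e : (a : ℝ) * ((t + 1) * (2 * Real.pi / (80 * M : ℕ))) = i * δ + θ * δ := by
    rw [hz, hδ]; push_cast; field_simp; ring
  rw [e]
  have e1 : ((i + 1 : ℕ) : ℝ) * δ = i * δ + δ := by push_cast; ring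
  rw [e1] at n1
  have c1 := interp_cos (i * δ) δ θ h0 h1
  have c2 := interp_sin (i * δ) δ θ h0 h1
  have hδ2 : δ ^ 2 / 8 ≤ 78 * ((t : ℝ) + 1) ^ 2 / 100000 := by
    rw [hδ, mul_pow]
    have hpi := Real.pi_lt_d2
    have hpi0 := Real.pi_pos
    have h5 : (Real.pi / 40) ^ 2 ≤ 8 * 78 / 100000 := by nlinarith
    have h6 : (0 : ℝ) ≤ ((t : ℝ) + 1) ^ 2 := sq_nonneg _
    have h7 := mul_le_mul_of_nonneg_left h5 h6
    linarith
  unfold Lv
  rw [hL, hL]
  have d1 := err_aux h0 h1 n0.1 n1.1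
  have d2 := err_aux h0 h1 n0.2 n1.2
  have e3 : ((1 - θ) * (v i (2 * t + 1) : ℝ) + θ * (v (i + 1) (2 * t + 1) : ℝ)) / 10000 =
      (1 - θ) * ((v i (2 * t + 1) : ℝ) / 10000) + θ * ((v (i + 1) (2 * t + 1) : ℝ) / 10000) := by ring
  have e4 : ((1 - θ) * (v i (2 * t + 2) : ℝ) + θ * (v (i + 1) (2 * t + 2) : ℝ)) / 10000 =
      (1 - θ) * ((v i (2 * t + 2) : ℝ) / 10000) + θ * ((v (i + 1) (2 * t + 2) : ℝ) / 10000) := by ring
  rw [e3, e4]
  rw [abs_le] at c1 c2 d1 d2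
  constructor
  · rw [abs_le]; constructor <;> linarith [c1.1, c1.2, d1.1, d1.2]
  · rw [abs_le]; constructor <;> linarith [c2.1, c2.2, d2.1, d2.2]

end Pool.Agent.TH665.Roh
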