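import Pool.Agent.TH665.Roh.Check
import Pool.Agent.TH665.Roh.Interp

/-!
# Extraction of the conditions from the finite check
-/

set_option autoImplicit false
set_option maxRecDepth 100000

open Finset

namespace Pool.Agent.TH665.Roh

lemma nodeChk_spec : ∀ (r w : List ℤ), nodeChk r w = true → ∀ j, j < r.length →
    0 ≤ r.getD j 0 ∧ (j < w.length → w.getD j 0 ≤ r.getD j 0)
  | [], _, _, j, hj => by simp at hj
  | r :: rs, [], h, j, hj => by
    simp only [nodeChk, Bool.and_eq_true, decide_eq_true_eq] at h
    rcases j with _ | j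
    · exact ⟨by simpa using h.1, fun h2 => by simp at h2⟩
    · have := nodeChk_spec rs [] h.2 j (by simpa using hj)
      exact ⟨by simpa using this.1, fun h2 => by simp at h2⟩
  | r :: rs, w :: ws, h, j, hj => by
    simp only [nodeChk, Bool.and_eq_true, decide_eq_true_eq] at h
    rcases j with _ | j
    · exact ⟨by simpa using h.1.1, fun _ => by simpa using h.1.2⟩
    · have := nodeChk_spec rs ws h.2 j (by simpa using hj)
      exact ⟨by simpa using this.1, fun h2 => by simpa using this.2 (by simpa using h2)⟩

lemma cellChk_spec : ∀ (a b w : List ℤ), cellChk a b w = true → ∀ j, j + 1 < a.length →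
    j + 1 < b.length →
    (j + 2 < w.length →
      4 * w.getD (j + 1) 0 ≤ a.getD j 0 + b.getD (j + 1) 0 + 2 * b.getD j 0 ∧
      4 * w.getD (j + 1) 0 ≤ a.getD j 0 + b.getD (j + 1) 0 + 2 * a.getD (j + 1) 0) ∧
    (j + 2 = w.length →
      4 * w.getD (j + 1) 0 ≤ a.getD j 0 + b.getD (j + 1) 0 + 3 * b.getD j 0 - a.getD (j + 1) 0 ∧
      4 * w.getD (j + 1) 0 ≤ a.getD j 0 + b.getD (j + 1) 0 + 3 * a.getD (j + 1) 0 - b.getD j 0)
  | [], _, _, _, j, hj, _ => by simp at hj
  | [_], _, _, _, j, hj, _ => by simp at hj
  | _ :: _ :: _, [], _, _, j, _, hj => by simp at hj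
  | _ :: _ :: _, [_], _, _, j, _, hj => by simp at hj
  | _ :: _ :: _, _ :: _ :: _, [], _, j, _, _ => by
    constructor <;> intro h <;> simp at h
  | _ :: _ :: _, _ :: _ :: _, [_], _, j, _, _ => by
    constructor <;> intro h <;> simp at h
  | a0 :: a1 :: as, b0 :: b1 :: bs, [w0, w1], h, j, hja, hjb => by
    simp only [cellChk, Bool.and_eq_true, decide_eq_true_eq] at h
    rcases j with _ | j
    · refine ⟨fun h2 => by simp at h2, fun _ => ?_⟩
      simpa using h
    · refine ⟨fun h2 => by simp at h2, fun h2 => by simp at h2⟩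
  | a0 :: a1 :: as, b0 :: b1 :: bs, w0 :: w1 :: w2 :: ws, h, j, hja, hjb => by
    simp only [cellChk, Bool.and_eq_true, decide_eq_true_eq] at h
    rcases j with _ | j
    · refine ⟨fun _ => ?_, fun h2 => by simp at h2⟩
      simpa using h.1
    · have := cellChk_spec (a1 :: as) (b1 :: bs) (w1 :: w2 :: ws) h.2 j (by simpa using hja)
        (by simpa using hjb)
      refine ⟨fun h2 => ?_, fun h2 => ?_⟩
      · simpa using this.1 (by simpa using h2)
      · simpa using this.2 (by simpa using h2)

lemma chkAux_spec : ∀ (R : List (List ℤ)) (w : List ℤ), chkAux R w = true →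
    R.length ≤ w.length → ∀ i, i < R.length →
    nodeChk (R.getD i []) (w.drop i) = true ∧
    (i + 1 < R.length → cellChk (R.getD i []) (R.getD (i + 1) []) (w.drop i) = true)
  | [], _, _, _, i, hi => by simp at hi
  | [r0], w, h, _, i, hi => by
    have : i = 0 := by simpa using hi
    subst this
    simp only [chkAux] at h
    exact ⟨by simpa using h, fun h2 => by simp at h2⟩
  | r0 :: r1 :: rs, [], _, hl, i, _ => by simp at hl
  | r0 :: r1 :: rs, w0 :: ws, h, hl, i, hi => by
    simp only [chkAux, Bool.and_eq_true] at h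
    rcases i with _ | i
    · exact ⟨by simpa using h.1.1, fun _ => by simpa using h.1.2⟩
    · have := chkAux_spec (r1 :: rs) ws h.2 (by simpa using hl) i (by simpa using hi)
      exact ⟨by simpa using this.1, fun h2 => by simpa using this.2 (by simpa using h2)⟩

/-- entries of the matrix -/
def Bm (i j : ℕ) : ℤ := (rows.getD i []).getD j 0

lemma V_length : V.length = 81 := by decide +kernel

lemma Wt_length : Wt.length = 81 := by decide +kernel

lemma rows_length : rows.length = 81 := by
  unfold rows
  rw [List.length_map, V_length]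

lemma getD_map_aux {α β : Type} (f : α → β) (d : α) (e : β) :
    ∀ (l : List α) (i : ℕ), i < l.length → (l.map f).getD i e = f (l.getD i d)
  | [], i, h => by simp at h
  | a :: l, i, h => by
    rcases i with _ | i
    · simp
    · simp only [List.map_cons, List.getD_cons_succ]
      exact getD_map_aux f d e l i (by simpa using h)

lemma row_eq {i : ℕ} (hi : i < 81) : rows.getD i [] = V.map (dot (scl Dg (V.getD i []))) :=
  getD_map_aux (fun u => V.map (dot (scl Dg u))) [] [] V i (by rw [V_length]; exact hi)

lemma row_length {i : ℕ} (hi : i < 81) : (rows.getD i []).length = 81 := by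
  rw [row_eq hi, List.length_map, V_length]

/-- the nodes of the test function -/
def Wn (k : ℕ) : ℤ := Wt.getD k 0

lemma drop_getD (l : List ℤ) (i j : ℕ) : (l.drop i).getD j 0 = l.getD (i + j) 0 := by
  rw [List.getD_eq_getElem?_getD, List.getD_eq_getElem?_getD, List.getElem?_drop]

lemma node_nonneg {i j : ℕ} (hi : i < 81) (hj : j < 81) : 0 ≤ Bm i j :=
  (nodeChk_spec _ _ (chkAux_spec rows Wt chk (by rw [rows_length, Wt_length]) i
    (by rw [rows_length]; exact hi)).1 j (by rw [row_length hi]; exact hj)).1

lemma node_ge {i j : ℕ} (h : i + j < 81) : Wn (i + j) ≤ Bm i j := by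
  have h1 := (nodeChk_spec _ _ (chkAux_spec rows Wt chk (by rw [rows_length, Wt_length]) i
    (by rw [rows_length]; omega)).1 j (by rw [row_length (by omega)]; omega)).2
    (by rw [List.length_drop, Wt_length]; omega)
  rw [drop_getD] at h1
  exact h1

lemma cell_ge {i j : ℕ} (h : i + j < 79) :
    4 * Wn (i + j + 1) ≤ Bm i j + Bm (i + 1) (j + 1) + 2 * Bm (i + 1) j ∧
    4 * Wn (i + j + 1) ≤ Bm i j + Bm (i + 1) (j + 1) + 2 * Bm i (j + 1) := by
  have h1 := (cellChk_spec _ _ _ ((chkAux_spec rows Wt chk (by rw [rows_length, Wt_length]) i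
    (by rw [rows_length]; omega)).2 (by rw [rows_length]; omega)) j
    (by rw [row_length (by omega)]; omega) (by rw [row_length (by omega)]; omega)).1
    (by rw [List.length_drop, Wt_length]; omega)
  rw [drop_getD, show i + (j + 1) = i + j + 1 by ring] at h1
  exact h1

lemma cell_last {i j : ℕ} (h : i + j = 79) :
    4 * Wn (i + j + 1) ≤ Bm i j + Bm (i + 1) (j + 1) + 3 * Bm (i + 1) j - Bm i (j + 1) ∧
    4 * Wn (i + j + 1) ≤ Bm i j + Bm (i + 1) (j + 1) + 3 * Bm i (j + 1) - Bm (i + 1) j := by
  have h1 := (cellChk_spec _ _ _ ((chkAux_spec rows Wt chk (by rw [rows_length, Wt_length]) i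
    (by rw [rows_length]; omega)).2 (by rw [rows_length]; omega)) j
    (by rw [row_length (by omega)]; omega) (by rw [row_length (by omega)]; omega)).2
    (by rw [List.length_drop, Wt_length]; omega)
  rw [drop_getD, show i + (j + 1) = i + j + 1 by ring] at h1
  exact h1

lemma dot_eq : ∀ (a b : List ℤ), dot a b = ∑ q ∈ range a.length, a.getD q 0 * b.getD q 0
  | [], b => by simp [dot]
  | a :: as, [] => by simp [dot]
  | a :: as, b :: bs => by
    rw [dot, dot_eq as bs, List.length_cons, sum_range_succ']
    simp only [List.getD_cons_succ, List.getD_cons_zero]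
    ring

lemma scl_getD : ∀ (a b : List ℤ) (q : ℕ), (scl a b).getD q 0 = a.getD q 0 * b.getD q 0
  | [], b, q => by simp [scl]
  | a :: as, [], q => by simp [scl]
  | a :: as, b :: bs, q => by
    rcases q with _ | q
    · simp [scl]
    · rw [scl]
      simp only [List.getD_cons_succ]
      exact scl_getD as bs q

lemma scl_length : ∀ (a b : List ℤ), (scl a b).length = min a.length b.length
  | [], b => by simp [scl]
  | a :: as, [] => by simp [scl]
  | a :: as, b :: bs => by simp [scl, scl_length as bs]

lemma V_row : ∀ i < 81, (V.getD i []).length = 23 := by decide +kernel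

/-- the weight of a coordinate -/
def dg (q : ℕ) : ℤ := Dg.getD q 0

lemma Dg_length : Dg.length = 23 := by decide +kernel

lemma Bm_eq {i j : ℕ} (hi : i < 81) (hj : j < 81) :
    Bm i j = ∑ q ∈ range 23, dg q * v i q * v j q := by
  have h2 : j < (V.map (dot (scl Dg (V.getD i [])))).length := by
    rw [List.length_map, V_length]; exact hj
  have h1 : j < V.length := by rw [V_length]; exact hj
  unfold Bm
  rw [row_eq hi, List.getD_eq_getElem _ _ h2, List.getElem_map, dot_eq, scl_length, Dg_length,
    V_row i hi, min_self]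
  refine sum_congr rfl fun q _ => ?_
  rw [scl_getD]
  unfold v dg
  rw [List.getD_eq_getElem V _ h1]

end Pool.Agent.TH665.Roh
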