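import Pool.Agent.TH665.Roh.Ext

/-!
# The kernel inequality
-/

set_option autoImplicit false
set_option maxRecDepth 100000

open Finset

namespace Pool.Agent.TH665.Roh

/-- the interpolated kernel -/
noncomputable def Bt (M a b : ℕ) : ℝ := ∑ q ∈ range 23, (dg q : ℝ) * Lv M a q * Lv M b q

/-- nodes of the test function, real -/
noncomputable def Wr (k : ℕ) : ℝ := (Wn k : ℝ)

lemma Bt_rep {M a b i j : ℕ} {θ φ : ℝ} (hi : i < 80) (hj : j < 80)
    (ha : ∀ f : ℕ → ℝ, L f M a = (1 - θ) * f i + θ * f (i + 1))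
    (hb : ∀ f : ℕ → ℝ, L f M b = (1 - φ) * f j + φ * f (j + 1)) :
    Bt M a b = (1 - θ) * (1 - φ) * Bm i j + (1 - θ) * φ * Bm i (j + 1) +
      θ * (1 - φ) * Bm (i + 1) j + θ * φ * Bm (i + 1) (j + 1) := by
  rw [Bm_eq (by omega : i < 81) (by omega : j < 81),
    Bm_eq (by omega : i < 81) (by omega : j + 1 < 81),
    Bm_eq (by omega : i + 1 < 81) (by omega : j < 81),
    Bm_eq (by omega : i + 1 < 81) (by omega : j + 1 < 81)]
  unfold Bt Lv
  push_cast
  rw [mul_sum, mul_sum, mul_sum, mul_sum, ← sum_add_distrib, ← sum_add_distrib, ← sum_add_distrib]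
  refine sum_congr rfl fun q _ => ?_
  rw [ha, hb]
  ring

lemma Bt_nonneg {M : ℕ} (hM : 0 < M) {a b : ℕ} (ha : a ≤ 80 * M) (hb : b ≤ 80 * M) :
    0 ≤ Bt M a b := by
  obtain ⟨i, θ, hi, h0, h1, -, hLa⟩ := L_rep hM ha
  obtain ⟨j, φ, hj, h2, h3, -, hLb⟩ := L_rep hM hb
  rw [Bt_rep hi hj hLa hLb]
  have e1 : (0 : ℝ) ≤ Bm i j := by exact_mod_cast node_nonneg (by omega) (by omega)
  have e2 : (0 : ℝ) ≤ Bm i (j + 1) := by exact_mod_cast node_nonneg (by omega) (by omega)
  have e3 : (0 : ℝ) ≤ Bm (i + 1) j := by exact_mod_cast node_nonneg (by omega) (by omega)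
  have e4 : (0 : ℝ) ≤ Bm (i + 1) (j + 1) := by exact_mod_cast node_nonneg (by omega) (by omega)
  have f1 : 0 ≤ 1 - θ := by linarith
  have f2 : 0 ≤ 1 - φ := by linarith
  positivity

lemma tri_aux {θ φ F00 F10 F01 G : ℝ} (h0 : 0 ≤ θ) (h2 : 0 ≤ φ) (hs : θ + φ ≤ 1)
    (hF : 0 ≤ F00) (hF1 : 0 ≤ F10) (hF2 : 0 ≤ F01)
    (hG1 : 0 ≤ F00 + G + 2 * F10) (hG2 : 0 ≤ F00 + G + 2 * F01) :
    0 ≤ (1 - θ - φ + θ * φ) * F00 + (θ - θ * φ) * F10 + (φ - θ * φ) * F01 + θ * φ * G := by
  have hp : 0 ≤ θ * φ := mul_nonneg h0 h2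
  have h4 : 4 * (θ * φ) ≤ θ + φ := by nlinarith [sq_nonneg (θ - φ)]
  have h5 : θ * φ ≤ θ := by nlinarith
  have h6 : θ * φ ≤ φ := by nlinarith
  rcases le_total F10 F01 with h | h
  · have g1 := mul_nonneg hp hG1
    have g2 : 0 ≤ (1 - θ - φ) * F00 := mul_nonneg (by linarith) hF
    have g3 : 0 ≤ (φ - θ * φ) * (F01 - F10) := mul_nonneg (by linarith) (by linarith)
    have g4 : 0 ≤ (θ + φ - 4 * (θ * φ)) * F10 := mul_nonneg (by linarith) hF1
    nlinarith
  · have g1 := mul_nonneg hp hG2
    have g2 : 0 ≤ (1 - θ - φ) * F00 := mul_nonneg (by linarith) hF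
    have g3 : 0 ≤ (θ - θ * φ) * (F10 - F01) := mul_nonneg (by linarith) (by linarith)
    have g4 : 0 ≤ (θ + φ - 4 * (θ * φ)) * F01 := mul_nonneg (by linarith) hF2
    nlinarith

lemma rep_unique {k m : ℕ} {ψ s : ℝ} (h0 : 0 ≤ ψ) (h1 : ψ ≤ 1) (h2 : 0 ≤ s) (h3 : s ≤ 1)
    (h : (k : ℝ) + ψ = m + s) (f : ℕ → ℝ) :
    (1 - ψ) * f k + ψ * f (k + 1) = (1 - s) * f m + s * f (m + 1) := by
  have hk1 : (k : ℝ) ≤ (m : ℝ) + 1 := by linarith
  have hk2 : (m : ℝ) ≤ (k : ℝ) + 1 := by linarith
  have hk1' : k ≤ m + 1 := by exact_mod_cast hk1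
  have hk2' : m ≤ k + 1 := by exact_mod_cast hk2
  rcases (by omega : k = m ∨ k = m + 1 ∨ m = k + 1) with hc | hc | hc
  · subst hc
    have : ψ = s := by linarith
    rw [this]
  · subst hc
    push_cast at h
    have h4 : ψ = 0 := by linarith
    have h5 : s = 1 := by linarith
    rw [h4, h5]; ring
  · subst hc
    push_cast at h
    have h4 : ψ = 1 := by linarith
    have h5 : s = 0 := by linarith
    rw [h4, h5]; ring

lemma Bt_ge {M : ℕ} (hM : 0 < M) {a b : ℕ} (hab : a + b ≤ 80 * M) :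
    L Wr M (a + b) ≤ Bt M a b := by
  have hMR : (0 : ℝ) < M := by exact_mod_cast hM
  obtain ⟨i, θ, hi, h0, h1, hza, hLa⟩ := L_rep hM (show a ≤ 80 * M by omega)
  obtain ⟨j, φ, hj, h2, h3, hzb, hLb⟩ := L_rep hM (show b ≤ 80 * M by omega)
  obtain ⟨k, ψ, hk, h4, h5, hzc, hLc⟩ := L_rep hM hab
  rw [Bt_rep hi hj hLa hLb, hLc]
  have hsum : (k : ℝ) + ψ = (i + j : ℕ) + (θ + φ) := by
    push_cast at hzc ⊢
    have : ((k : ℝ) + ψ) * M = (i + j + (θ + φ)) * M := by rw [← hzc, hza, hzb]; ring
    exact mul_right_cancel₀ hMR.ne' this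
  have hk80 : (k : ℝ) + ψ ≤ 80 := by
    have : (k : ℝ) ≤ 79 := by exact_mod_cast (by omega : k ≤ 79)
    linarith
  have hm : i + j ≤ 80 := by
    have : ((i + j : ℕ) : ℝ) ≤ 80 := by linarith
    exact_mod_cast this
  rcases le_total (θ + φ) 1 with hs | hs
  · rcases (by omega : i + j ≤ 79 ∨ i + j = 80) with hm' | hm'
    · -- lower triangle
      rw [rep_unique h4 h5 (add_nonneg h0 h2) hs hsum Wr]
      have e0 : Wr (i + j) ≤ Bm i j := by
        unfold Wr; exact_mod_cast node_ge (by omega)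
      have e1 : Wr (i + j + 1) ≤ Bm (i + 1) j := by
        unfold Wr
        have := node_ge (i := i + 1) (j := j) (by omega)
        rw [show i + 1 + j = i + j + 1 by ring] at this
        exact_mod_cast this
      have e2 : Wr (i + j + 1) ≤ Bm i (j + 1) := by
        unfold Wr
        have := node_ge (i := i) (j := j + 1) (by omega)
        rw [show i + (j + 1) = i + j + 1 by ring] at this
        exact_mod_cast this
      have e3 : 4 * Wr (i + j + 1) ≤ Bm i j + Bm (i + 1) (j + 1) + 2 * Bm (i + 1) j ∧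
          4 * Wr (i + j + 1) ≤ Bm i j + Bm (i + 1) (j + 1) + 2 * Bm i (j + 1) := by
        unfold Wr
        rcases (by omega : i + j < 79 ∨ i + j = 79) with h7 | h7
        · have := cell_ge h7
          exact ⟨by exact_mod_cast this.1, by exact_mod_cast this.2⟩
        · have := cell_last h7
          have t1 : 4 * (Wn (i + j + 1) : ℝ) ≤ Bm i j + Bm (i + 1) (j + 1) + 3 * Bm (i + 1) j -
              Bm i (j + 1) := by exact_mod_cast this.1
          have t2 : 4 * (Wn (i + j + 1) : ℝ) ≤ Bm i j + Bm (i + 1) (j + 1) + 3 * Bm i (j + 1) -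
              Bm (i + 1) j := by exact_mod_cast this.2
          rcases le_total (Bm (i + 1) j : ℝ) (Bm i (j + 1)) with h8 | h8
          · constructor <;> linarith
          · constructor <;> linarith
      have := tri_aux (F00 := Bm i j - Wr (i + j)) (F10 := Bm (i + 1) j - Wr (i + j + 1))
        (F01 := Bm i (j + 1) - Wr (i + j + 1))
        (G := Bm (i + 1) (j + 1) + Wr (i + j) - 2 * Wr (i + j + 1)) h0 h2 hs (by linarith)
        (by linarith) (by linarith) (by linarith [e3.1]) (by linarith [e3.2])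
      nlinarith
    · -- the corner
      have h6 : θ + φ ≤ 0 := by
        rw [hm'] at hsum
        push_cast at hsum
        linarith
      have h7 : θ = 0 := by linarith
      have h8 : φ = 0 := by linarith
      have h9 : k = 79 := by
        by_contra hne
        have : (k : ℝ) ≤ 78 := by exact_mod_cast (by omega : k ≤ 78)
        rw [hm'] at hsum
        push_cast at hsum
        linarith
      have h10 : ψ = 1 := by
        rw [hm', h9] at hsum
        push_cast at hsum
        linarith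
      have e0 : Wr (i + j) ≤ Bm i j := by
        unfold Wr; exact_mod_cast node_ge (by omega)
      rw [h7, h8, h9, h10]
      rw [hm'] at e0
      norm_num
      exact e0
  · rcases (by omega : i + j ≤ 78 ∨ 79 ≤ i + j) with hm' | hm'
    · -- upper triangle
      have hsum' : (k : ℝ) + ψ = ((i + j + 1 : ℕ) : ℝ) + (θ + φ - 1) := by
        rw [hsum]; push_cast; ring
      rw [rep_unique h4 h5 (by linarith) (by linarith) hsum' Wr]
      have e0 : Wr (i + j + 1 + 1) ≤ Bm (i + 1) (j + 1) := by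
        unfold Wr
        have := node_ge (i := i + 1) (j := j + 1) (by omega)
        rw [show i + 1 + (j + 1) = i + j + 1 + 1 by ring] at this
        exact_mod_cast this
      have e1 : Wr (i + j + 1) ≤ Bm (i + 1) j := by
        unfold Wr
        have := node_ge (i := i + 1) (j := j) (by omega)
        rw [show i + 1 + j = i + j + 1 by ring] at this
        exact_mod_cast this
      have e2 : Wr (i + j + 1) ≤ Bm i (j + 1) := by
        unfold Wr
        have := node_ge (i := i) (j := j + 1) (by omega)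
        rw [show i + (j + 1) = i + j + 1 by ring] at this
        exact_mod_cast this
      have e3 : 4 * Wr (i + j + 1) ≤ Bm i j + Bm (i + 1) (j + 1) + 2 * Bm (i + 1) j ∧
          4 * Wr (i + j + 1) ≤ Bm i j + Bm (i + 1) (j + 1) + 2 * Bm i (j + 1) := by
        unfold Wr
        have := cell_ge (i := i) (j := j) (by omega)
        exact ⟨by exact_mod_cast this.1, by exact_mod_cast this.2⟩
      have := tri_aux (θ := 1 - θ) (φ := 1 - φ) (F00 := Bm (i + 1) (j + 1) - Wr (i + j + 1 + 1))
        (F10 := Bm i (j + 1) - Wr (i + j + 1))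
        (F01 := Bm (i + 1) j - Wr (i + j + 1))
        (G := Bm i j + Wr (i + j + 1 + 1) - 2 * Wr (i + j + 1)) (by linarith) (by linarith)
        (by linarith) (by linarith)
        (by linarith) (by linarith) (by linarith [e3.2]) (by linarith [e3.1])
      nlinarith
    · -- then the sum is one
      have h6 : (79 : ℝ) ≤ ((i + j : ℕ) : ℝ) := by exact_mod_cast hm'
      have h7 : θ + φ = 1 := by linarith
      have h8 : i + j = 79 := by
        by_contra hne
        have : (80 : ℝ) ≤ ((i + j : ℕ) : ℝ) := by exact_mod_cast (by omega : 80 ≤ i + j)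
        linarith
      rw [rep_unique h4 h5 (add_nonneg h0 h2) h7.le hsum Wr]
      have e1 : Wr (i + j + 1) ≤ Bm (i + 1) j := by
        unfold Wr
        have := node_ge (i := i + 1) (j := j) (by omega)
        rw [show i + 1 + j = i + j + 1 by ring] at this
        exact_mod_cast this
      have e2 : Wr (i + j + 1) ≤ Bm i (j + 1) := by
        unfold Wr
        have := node_ge (i := i) (j := j + 1) (by omega)
        rw [show i + (j + 1) = i + j + 1 by ring] at this
        exact_mod_cast this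
      have t := cell_last h8
      have t1 : 4 * Wr (i + j + 1) ≤ Bm i j + Bm (i + 1) (j + 1) + 3 * Bm (i + 1) j -
          Bm i (j + 1) := by unfold Wr; exact_mod_cast t.1
      have t2 : 4 * Wr (i + j + 1) ≤ Bm i j + Bm (i + 1) (j + 1) + 3 * Bm i (j + 1) -
          Bm (i + 1) j := by unfold Wr; exact_mod_cast t.2
      have e0 : Wr (i + j) ≤ Bm i j := by
        unfold Wr; exact_mod_cast node_ge (by omega)
      have e3 : 4 * Wr (i + j + 1) ≤ Bm i j + Bm (i + 1) (j + 1) + 2 * Bm (i + 1) j ∧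
          4 * Wr (i + j + 1) ≤ Bm i j + Bm (i + 1) (j + 1) + 2 * Bm i (j + 1) := by
        rcases le_total (Bm (i + 1) j : ℝ) (Bm i (j + 1)) with h8 | h8
        · constructor <;> linarith
        · constructor <;> linarith
      have := tri_aux (F00 := Bm i j - Wr (i + j)) (F10 := Bm (i + 1) j - Wr (i + j + 1))
        (F01 := Bm i (j + 1) - Wr (i + j + 1))
        (G := Bm (i + 1) (j + 1) + Wr (i + j) - 2 * Wr (i + j + 1)) h0 h2 h7.le (by linarith)
        (by linarith) (by linarith) (by linarith [e3.1]) (by linarith [e3.2])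
      nlinarith

end Pool.Agent.TH665.Roh
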