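import Pool.Agent.TH665.Roh.Sums
import Pool.Agent.H820R3.DG.Four

/-!
# The main inequality for the digits
-/

set_option autoImplicit false
set_option maxRecDepth 100000
set_option linter.unusedSectionVars false

open Finset

namespace Pool.Agent.TH665.Roh

open Pool.Agent.H394R2.Ones Pool.Agent.H820R3.DG

section
variable {b : ℕ} {y : ℝ} (hb : 2 ≤ b) (hy0 : 0 < y) (hy1 : y < 1) (hirr : Irrational y)
  {τ D : ℝ} {n : ℕ} {d : ℕ → ℝ} (hd0 : ∀ m, 0 ≤ d m) (hd : ∀ m, τ - d m ≤ T b y m)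
  (hD : ∑ m ∈ range n, d m ≤ D)

/-- the error term -/
noncomputable def Er2 (b : ℕ) (y τ D : ℝ) (n : ℕ) : ℝ :=
  (K b y n : ℝ) ^ 2 - ((b : ℝ) - 1) * τ * n + 2 * ((b : ℝ) - 1) * D + (32 * b + 2) * (K b y n + 1)

include hb hy0 hy1 hirr hd0 hd hD in
lemma norm_r_sum2 (hn : 0 < n) {w : ℂ} (hw1 : ‖w‖ = 1) (hwn : w ^ n = 1) (hw : w ≠ 1)
    (hwd : ‖w - 1‖ * n ≤ 32) :
    ‖∑ m ∈ range (n + 1), (r b y m : ℂ) * w ^ m‖ + (K b y n : ℝ) ^ 2 - R b y n ≤
      Er2 b y τ D n := by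
  have hbR : (2 : ℝ) ≤ b := by exact_mod_cast hb
  have hn0 : (0 : ℝ) < n := by exact_mod_cast hn
  have hwp : ∀ m, ‖w ^ m‖ = 1 := fun m => by rw [norm_pow, hw1, one_pow]
  have hgeom : ∑ m ∈ range n, w ^ m = 0 := by
    have h := mul_neg_geom_sum w n
    rw [hwn, sub_self] at h
    rcases mul_eq_zero.mp h with h | h
    · exact absurd (by linear_combination -h) hw
    · exact h
  have hA : ∑ m ∈ range n, (T b y m : ℂ) * w ^ m
      = ∑ m ∈ range n, ((T b y m - τ : ℝ) : ℂ) * w ^ m := by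
    have h1 : ∑ m ∈ range n, ((T b y m - τ : ℝ) : ℂ) * w ^ m
        = ∑ m ∈ range n, (T b y m : ℂ) * w ^ m - τ * ∑ m ∈ range n, w ^ m := by
      rw [mul_sum, ← sum_sub_distrib]
      refine sum_congr rfl fun m _ => ?_
      push_cast
      ring
    rw [h1, hgeom, mul_zero, sub_zero]
  have h1 : ‖∑ m ∈ range n, (T b y m : ℂ) * w ^ m‖ ≤ ∑ m ∈ range n, |T b y m - τ| := by
    rw [hA]
    refine (norm_sum_le _ _).trans (sum_le_sum fun m _ => ?_)
    rw [norm_mul, hwp, mul_one, Complex.norm_real, Real.norm_eq_abs]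
  have h2 : ‖∑ m ∈ range n, (T b y m : ℂ) * w ^ m‖ ≤ ∑ m ∈ range n, T b y m := by
    refine (norm_sum_le _ _).trans (sum_le_sum fun m _ => ?_)
    rw [norm_mul, hwp, mul_one, Complex.norm_real, Real.norm_eq_abs,
      abs_of_pos (T_pos hb hy0 hy1 hirr m)]
  have h3 := T_abs_sum' hd0 hd hD
  have h4 := T_sum_le hb hy0 hy1 hirr n
  have h5 := R_eq hb hy0 hy1 n
  have h6 := T_le hb hy0 hy1 (b := b) n
  have h7 := T_pos hb hy0 hy1 hirr n
  have h8 := T_pos hb hy0 hy1 hirr 0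
  have hK : (0 : ℝ) ≤ K b y n := Nat.cast_nonneg _
  have h9 : ‖∑ m ∈ range (n + 1), (r b y m : ℂ) * w ^ m‖ ≤
      ((b : ℝ) - 1) * (∑ m ∈ range n, |T b y m - τ|) + b * ‖w - 1‖ * (∑ m ∈ range n, T b y m)
        + T b y 0 + T b y n := by
    rw [r_sum hb hy0 hy1 w n]
    have e1 : ‖((b : ℂ) - 1)‖ = (b : ℝ) - 1 := by
      have : ((b : ℂ) - 1) = (((b : ℝ) - 1 : ℝ) : ℂ) := by push_cast; ring
      rw [this, Complex.norm_real, Real.norm_eq_abs, abs_of_nonneg (by linarith)]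
    have e2 : ‖(T b y 0 : ℂ)‖ = T b y 0 := by
      rw [Complex.norm_real, Real.norm_eq_abs, abs_of_pos h8]
    have e3 : ‖(T b y n : ℂ) * w ^ n‖ = T b y n := by
      rw [norm_mul, hwp, mul_one, Complex.norm_real, Real.norm_eq_abs, abs_of_pos h7]
    have e4 : ‖((b : ℂ) - 1) * ∑ m ∈ range n, (T b y m : ℂ) * w ^ m‖
        ≤ ((b : ℝ) - 1) * (∑ m ∈ range n, |T b y m - τ|) := by
      rw [norm_mul, e1]
      exact mul_le_mul_of_nonneg_left h1 (by linarith)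
    have e5 : ‖(b : ℂ) * (w - 1) * ∑ m ∈ range n, (T b y m : ℂ) * w ^ m‖
        ≤ b * ‖w - 1‖ * (∑ m ∈ range n, T b y m) := by
      rw [norm_mul, norm_mul, Complex.norm_natCast]
      exact mul_le_mul_of_nonneg_left h2 (by positivity)
    calc _ ≤ ‖((b : ℂ) - 1) * ∑ m ∈ range n, (T b y m : ℂ) * w ^ m
          + (b : ℂ) * (w - 1) * ∑ m ∈ range n, (T b y m : ℂ) * w ^ m + T b y 0‖
          + ‖(T b y n : ℂ) * w ^ n‖ := norm_sub_le _ _
      _ ≤ ‖((b : ℂ) - 1) * ∑ m ∈ range n, (T b y m : ℂ) * w ^ m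
          + (b : ℂ) * (w - 1) * ∑ m ∈ range n, (T b y m : ℂ) * w ^ m‖ + ‖(T b y 0 : ℂ)‖
          + ‖(T b y n : ℂ) * w ^ n‖ := by gcongr; exact norm_add_le _ _
      _ ≤ ‖((b : ℂ) - 1) * ∑ m ∈ range n, (T b y m : ℂ) * w ^ m‖
          + ‖(b : ℂ) * (w - 1) * ∑ m ∈ range n, (T b y m : ℂ) * w ^ m‖ + ‖(T b y 0 : ℂ)‖
          + ‖(T b y n : ℂ) * w ^ n‖ := by gcongr; exact norm_add_le _ _
      _ ≤ _ := by rw [e2, e3]; gcongr
  have h10 : b * ‖w - 1‖ * (∑ m ∈ range n, T b y m) ≤ 32 * b * (K b y n + 1) := by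
    calc b * ‖w - 1‖ * (∑ m ∈ range n, T b y m) ≤ b * ‖w - 1‖ * (n * (K b y n + 1)) :=
          mul_le_mul_of_nonneg_left h4 (by positivity)
      _ = b * (K b y n + 1) * (‖w - 1‖ * n) := by ring
      _ ≤ b * (K b y n + 1) * 32 := mul_le_mul_of_nonneg_left hwd (by positivity)
      _ = _ := by ring
  have h11 : ((b : ℝ) - 1) * (∑ m ∈ range n, |T b y m - τ|) ≤
      ((b : ℝ) - 1) * (∑ m ∈ range n, T b y m - τ * n + 2 * D) :=
    mul_le_mul_of_nonneg_left h3 (by linarith)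
  unfold Er2
  nlinarith

include hb hy0 hy1 hirr hd0 hd hD in
lemma F_bound2 {θ : ℝ} (h0 : 0 < θ) (h1 : θ < 2 * Real.pi)
    (hθ : ∃ j : ℕ, θ * n = j * (2 * Real.pi)) (h2 : θ * n ≤ 32) (hn : 0 < n) :
    ‖F b y n (Complex.exp (Complex.I * (θ : ℂ)))‖ ^ 2 ≤ Er2 b y τ D n := by
  set w : ℂ := Complex.exp (Complex.I * (θ : ℂ)) with hw
  have hw1 : ‖w‖ = 1 := by
    rw [hw, mul_comm]
    exact Complex.norm_exp_ofReal_mul_I θ
  have hwn : w ^ n = 1 := by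
    obtain ⟨j, hj⟩ := hθ
    rw [hw, ← Complex.exp_nat_mul, Complex.exp_eq_one_iff]
    refine ⟨j, ?_⟩
    have : ((θ * n : ℝ) : ℂ) = ((j * (2 * Real.pi) : ℝ) : ℂ) := by rw [hj]
    push_cast at this ⊢
    linear_combination Complex.I * this
  have hne : w ≠ 1 := by
    intro h
    rw [hw, Complex.exp_eq_one_iff] at h
    obtain ⟨m, hm⟩ := h
    have h3 : θ = m * (2 * Real.pi) := by
      have h4 : Complex.I * (θ : ℂ) = Complex.I * ((m * (2 * Real.pi) : ℝ) : ℂ) := by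
        rw [hm]; push_cast; ring
      have h5 := mul_left_cancel₀ Complex.I_ne_zero h4
      exact_mod_cast h5
    have hpi := Real.pi_pos
    have h6 : (0 : ℝ) < m := by
      by_contra hcon
      have : (m : ℝ) * (2 * Real.pi) ≤ 0 := by nlinarith
      linarith
    have h7 : (m : ℝ) < 1 := by
      by_contra hcon
      have : 1 * (2 * Real.pi) ≤ (m : ℝ) * (2 * Real.pi) := by nlinarith
      linarith
    have h8 : (0 : ℤ) < m := by exact_mod_cast h6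
    have h9 : m < (1 : ℤ) := by exact_mod_cast h7
    omega
  have hdd : ‖w - 1‖ * n ≤ 32 := by
    have h3 : ‖w - 1‖ ≤ θ := by
      have := Real.norm_exp_I_mul_ofReal_sub_one_le (x := θ)
      rw [Real.norm_eq_abs, abs_of_pos h0] at this
      exact this
    have h4 : (0 : ℝ) ≤ n := Nat.cast_nonneg _
    nlinarith
  have h3 := norm_r_sum2 hb hy0 hy1 hirr hd0 hd hD hn hw1 hwn hne hdd
  have h4 := F_sq (b := b) (y := y) n hw1
  have h5 : (K b y n : ℝ) ^ 2 = R b y n + Q b y n := by exact_mod_cast K_sq (b := b) (y := y) n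
  linarith

include hb hy0 hy1 in
/-- summation by parts -/
lemma weighted (φ : ℕ → ℝ) (n : ℕ) :
    ∑ m ∈ range (n + 1), (r b y m : ℝ) * φ m =
      ∑ m ∈ range n, T b y m * (b * φ (m + 1) - φ m) + T b y 0 * φ 0 - T b y n * φ n := by
  induction n with
  | zero => simp [r_zero hy0 hy1]
  | succ n ih =>
    rw [sum_range_succ, ih, sum_range_succ _ n]
    have h1 := T_succ hb hy0 hy1 (b := b) n
    have h2 : (r b y (n + 1) : ℝ) = b * T b y n - T b y (n + 1) := by linarith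
    rw [h2]
    ring

include hb hy0 hy1 hirr hd0 hd hD in
lemma weighted_lower (hn : 0 < n) (φ : ℕ → ℝ) (c : ℝ) (hφ0 : ∀ m ≤ n, 0 ≤ φ m)
    (hφ1 : ∀ m ≤ n, φ m ≤ 1) (hφd : ∀ m < n, |φ (m + 1) - φ m| * n ≤ c) :
    ((b : ℝ) - 1) * τ * ∑ m ∈ range n, φ m - ((b : ℝ) - 1) * D - (c * b + 1) * (K b y n + 1) ≤
      ∑ m ∈ range (n + 1), (r b y m : ℝ) * φ m := by
  have hbR : (2 : ℝ) ≤ b := by exact_mod_cast hb
  have hn0 : (0 : ℝ) < n := by exact_mod_cast hn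
  have hK : (0 : ℝ) ≤ K b y n := Nat.cast_nonneg _
  rw [weighted hb hy0 hy1]
  have h1 : ∀ m ∈ range n, ((b : ℝ) - 1) * τ * φ m - ((b : ℝ) - 1) * d m -
      c * b * (K b y n + 1) / n ≤ T b y m * (b * φ (m + 1) - φ m) := by
    intro m hm
    have hm' : m < n := mem_range.mp hm
    have t0 := T_pos hb hy0 hy1 hirr m
    have t1 := T_le hb hy0 hy1 (b := b) m
    have t2 : (K b y m : ℝ) ≤ K b y n := by exact_mod_cast K_mono hm'.le
    have p0 := hφ0 m hm'.le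
    have p1 := hφ1 m hm'.le
    have p2 := hφd m hm'
    have d0 := hd0 m
    have d1 := hd m
    have e : T b y m * (b * φ (m + 1) - φ m) =
        ((b : ℝ) - 1) * (φ m * T b y m) + b * (T b y m * (φ (m + 1) - φ m)) := by ring
    rw [e]
    have a1 : φ m * τ - d m ≤ φ m * T b y m := by
      have := mul_le_mul_of_nonneg_left d1 p0
      nlinarith
    have a2 : -(c * (K b y n + 1) / n) ≤ T b y m * (φ (m + 1) - φ m) := by
      have c0 : |φ (m + 1) - φ m| ≤ c / n := by rw [le_div_iff₀ hn0]; exact p2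
      have c1 : -(T b y m * |φ (m + 1) - φ m|) ≤ T b y m * (φ (m + 1) - φ m) := by
        have := mul_le_mul_of_nonneg_left (neg_abs_le (φ (m + 1) - φ m)) t0.le
        linarith
      have c2 : T b y m * |φ (m + 1) - φ m| ≤ (K b y n + 1) * (c / n) :=
        mul_le_mul (by linarith) c0 (abs_nonneg _) (by linarith)
      have c3 : (K b y n + 1) * (c / n) = c * (K b y n + 1) / n := by ring
      linarith
    have a3 := mul_le_mul_of_nonneg_left a1 (by linarith : (0 : ℝ) ≤ (b : ℝ) - 1)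
    have a4 := mul_le_mul_of_nonneg_left a2 (by linarith : (0 : ℝ) ≤ (b : ℝ))
    have a5 : (b : ℝ) * (-(c * (K b y n + 1) / n)) = -(c * b * (K b y n + 1) / n) := by ring
    linarith
  have h2 := sum_le_sum h1
  rw [sum_sub_distrib, sum_sub_distrib, sum_const, card_range, nsmul_eq_mul, ← mul_sum,
    ← mul_sum] at h2
  have h3 : (n : ℝ) * (c * b * (K b y n + 1) / n) = c * b * (K b y n + 1) := by
    field_simp
  rw [h3] at h2
  have h4 := mul_le_mul_of_nonneg_left hD (by linarith : (0 : ℝ) ≤ (b : ℝ) - 1)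
  have h5 : 0 ≤ T b y 0 * φ 0 := mul_nonneg (T_pos hb hy0 hy1 hirr 0).le (hφ0 0 (Nat.zero_le _))
  have h6 : T b y n * φ n ≤ K b y n + 1 := by
    have t0 := T_pos hb hy0 hy1 hirr n
    have t1 := T_le hb hy0 hy1 (b := b) n
    have p1 := hφ1 n le_rfl
    nlinarith
  nlinarith

end

section
variable {b : ℕ} {y : ℝ}

/-- transform of the digits against a coordinate -/
noncomputable def G (b : ℕ) (y : ℝ) (M q : ℕ) : ℝ :=
  ∑ i ∈ range (80 * M + 1), (x b y i : ℝ) * Lv M i q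

lemma form_eq (M : ℕ) :
    ∑ p ∈ range (80 * M + 1) ×ˢ range (80 * M + 1),
      (x b y p.1 : ℝ) * (x b y p.2 : ℝ) * Bt M p.1 p.2 =
      ∑ q ∈ range 23, (dg q : ℝ) * G b y M q ^ 2 := by
  unfold Bt
  simp only [mul_sum]
  rw [sum_comm]
  refine sum_congr rfl fun q _ => ?_
  unfold G
  rw [sq, sum_mul_sum, ← sum_product', mul_sum]
  refine sum_congr rfl fun p _ => ?_
  ring

lemma form_ge {M : ℕ} (hM : 0 < M) :
    ∑ m ∈ range (80 * M + 1), (r b y m : ℝ) * L Wr M m ≤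
      ∑ q ∈ range 23, (dg q : ℝ) * G b y M q ^ 2 := by
  rw [← form_eq, pair_sum (80 * M) (fun i j => (x b y i : ℝ) * (x b y j : ℝ) * Bt M i j)]
  have h1 : ∑ m ∈ range (80 * M + 1), (r b y m : ℝ) * L Wr M m ≤
      ∑ m ∈ range (80 * M + 1), ∑ p ∈ antidiagonal m,
        (x b y p.1 : ℝ) * (x b y p.2 : ℝ) * Bt M p.1 p.2 := by
    refine sum_le_sum fun m hm => ?_
    unfold r
    push_cast
    rw [sum_mul]
    refine sum_le_sum fun p hp => ?_
    rw [HasAntidiagonal.mem_antidiagonal] at hp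
    have hm' : m ≤ 80 * M := by have := mem_range.mp hm; omega
    have h2 := Bt_ge hM (a := p.1) (b := p.2) (by rw [hp]; exact hm')
    rw [hp] at h2
    exact mul_le_mul_of_nonneg_left h2 (by positivity)
  have h2 : 0 ≤ ∑ p ∈ (range (80 * M + 1) ×ˢ range (80 * M + 1)).filter
      (fun p => ¬ p.1 + p.2 ≤ 80 * M), (x b y p.1 : ℝ) * (x b y p.2 : ℝ) * Bt M p.1 p.2 := by
    refine sum_nonneg fun p hp => ?_
    have h3 := mem_product.mp (mem_filter.mp hp).1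
    have h4 := mem_range.mp h3.1
    have h5 := mem_range.mp h3.2
    have := Bt_nonneg hM (a := p.1) (b := p.2) (by omega) (by omega)
    positivity
  linarith

lemma v_zero : ∀ i < 81, v i 0 = 1 := by decide +kernel

lemma G_zero {M : ℕ} (hM : 0 < M) : G b y M 0 = K b y (80 * M) := by
  unfold G K
  push_cast
  refine sum_congr rfl fun i hi => ?_
  obtain ⟨k, θ, hk, h0, h1, -, hL⟩ := L_rep hM (a := i) (by have := mem_range.mp hi; omega)
  unfold Lv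
  rw [hL]
  rw [v_zero k (by omega), v_zero (k + 1) (by omega)]
  push_cast
  ring

lemma sq_pert {g c e β : ℝ} (hβ : 0 < β) (h : |g - c| ≤ e) :
    g ^ 2 ≤ (1 + β) * c ^ 2 + (1 + 1 / β) * e ^ 2 := by
  have h1 : (g - c) ^ 2 ≤ e ^ 2 := by
    have := abs_nonneg (g - c)
    rw [← sq_abs]
    exact pow_le_pow_left₀ this h 2
  have h2 : g ^ 2 ≤ (1 + β) * c ^ 2 + (1 + 1 / β) * (g - c) ^ 2 := by
    have h3 : (1 + β) * c ^ 2 + (1 + 1 / β) * (g - c) ^ 2 - g ^ 2 = (β * c - (g - c)) ^ 2 / β := by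
      field_simp
      ring
    have h4 : 0 ≤ (β * c - (g - c)) ^ 2 / β := by positivity
    linarith
  have h5 : (1 + 1 / β) * (g - c) ^ 2 ≤ (1 + 1 / β) * e ^ 2 :=
    mul_le_mul_of_nonneg_left h1 (by positivity)
  linarith

lemma G_close {M : ℕ} (hM : 0 < M) (t : ℕ) (ht : t < 5) :
    |G b y M (2 * t + 1) / 10000 - (F b y (80 * M) (Complex.exp (Complex.I *
      (((t + 1) * (2 * Real.pi / (80 * M : ℕ)) : ℝ) : ℂ)))).re| ≤
        (78 * ((t : ℝ) + 1) ^ 2 + 10) / 100000 * K b y (80 * M) ∧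
    |G b y M (2 * t + 2) / 10000 - (F b y (80 * M) (Complex.exp (Complex.I *
      (((t + 1) * (2 * Real.pi / (80 * M : ℕ)) : ℝ) : ℂ)))).im| ≤
        (78 * ((t : ℝ) + 1) ^ 2 + 10) / 100000 * K b y (80 * M) := by
  rw [F_re, F_im]
  unfold G K
  push_cast
  constructor
  · rw [sum_div, ← sum_sub_distrib, mul_sum]
    refine (abs_sum_le_sum_abs _ _).trans (sum_le_sum fun i hi => ?_)
    have h := (L_trig hM (a := i) (by have := mem_range.mp hi; omega) t ht).1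
    push_cast at h
    have e : (x b y i : ℝ) * Lv M i (2 * t + 1) / 10000 -
        (x b y i : ℝ) * Real.cos (i * (((t : ℝ) + 1) * (2 * Real.pi / (80 * M)))) =
        (x b y i : ℝ) * (Lv M i (2 * t + 1) / 10000 -
          Real.cos (i * (((t : ℝ) + 1) * (2 * Real.pi / (80 * M))))) := by ring
    rw [e, abs_mul, Nat.abs_cast]
    rw [mul_comm _ (x b y i : ℝ)]
    exact mul_le_mul_of_nonneg_left h (Nat.cast_nonneg _)
  · rw [sum_div, ← sum_sub_distrib, mul_sum]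
    refine (abs_sum_le_sum_abs _ _).trans (sum_le_sum fun i hi => ?_)
    have h := (L_trig hM (a := i) (by have := mem_range.mp hi; omega) t ht).2
    push_cast at h
    have e : (x b y i : ℝ) * Lv M i (2 * t + 2) / 10000 -
        (x b y i : ℝ) * Real.sin (i * (((t : ℝ) + 1) * (2 * Real.pi / (80 * M)))) =
        (x b y i : ℝ) * (Lv M i (2 * t + 2) / 10000 -
          Real.sin (i * (((t : ℝ) + 1) * (2 * Real.pi / (80 * M))))) := by ring
    rw [e, abs_mul, Nat.abs_cast]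
    rw [mul_comm _ (x b y i : ℝ)]
    exact mul_le_mul_of_nonneg_left h (Nat.cast_nonneg _)

lemma G_pair {M : ℕ} (hM : 0 < M) (t : ℕ) (ht : t < 5) {β E0 : ℝ} (hβ : 0 < β)
    (hE : ‖F b y (80 * M) (Complex.exp (Complex.I *
      (((t + 1) * (2 * Real.pi / (80 * M : ℕ)) : ℝ) : ℂ)))‖ ^ 2 ≤ E0) :
    G b y M (2 * t + 1) ^ 2 + G b y M (2 * t + 2) ^ 2 ≤ 100000000 * ((1 + β) * E0 +
      2 * (1 + 1 / β) * ((78 * ((t : ℝ) + 1) ^ 2 + 10) / 100000) ^ 2 * (K b y (80 * M)) ^ 2) := by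
  obtain ⟨h1, h2⟩ := G_close (b := b) (y := y) hM t ht
  have h3 := sq_pert hβ h1
  have h4 := sq_pert hβ h2
  rw [Complex.sq_norm, Complex.normSq_apply] at hE
  have h5 := mul_le_mul_of_nonneg_left hE (by linarith : 0 ≤ 1 + β)
  nlinarith

lemma dg_vals : dg 0 = 452700000000 ∧ dg 1 = 2905 ∧ dg 2 = 2905 ∧ dg 3 = 1494 ∧ dg 4 = 1494 ∧
    dg 5 = 748 ∧ dg 6 = 748 ∧ dg 7 = 266 ∧ dg 8 = 266 ∧ dg 9 = 62 ∧ dg 10 = 62 ∧
    ∀ q < 12, dg (11 + q) = -1 := by decide +kernel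

lemma form_le (M : ℕ) :
    ∑ q ∈ range 23, (dg q : ℝ) * G b y M q ^ 2 ≤
      452700000000 * G b y M 0 ^ 2 +
      2905 * (G b y M 1 ^ 2 + G b y M 2 ^ 2) + 1494 * (G b y M 3 ^ 2 + G b y M 4 ^ 2) +
      748 * (G b y M 5 ^ 2 + G b y M 6 ^ 2) + 266 * (G b y M 7 ^ 2 + G b y M 8 ^ 2) +
      62 * (G b y M 9 ^ 2 + G b y M 10 ^ 2) := by
  obtain ⟨h0, h1, h2, h3, h4, h5, h6, h7, h8, h9, h10, h11⟩ := dg_vals
  rw [show 23 = 11 + 12 by norm_num, sum_range_add]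
  have h12 : ∑ q ∈ range 12, (dg (11 + q) : ℝ) * G b y M (11 + q) ^ 2 ≤ 0 := by
    refine sum_nonpos fun q hq => ?_
    rw [h11 q (mem_range.mp hq)]
    push_cast
    have := sq_nonneg (G b y M (11 + q))
    linarith
  have h13 : ∑ q ∈ range 11, (dg q : ℝ) * G b y M q ^ 2 =
      452700000000 * G b y M 0 ^ 2 +
      2905 * (G b y M 1 ^ 2 + G b y M 2 ^ 2) + 1494 * (G b y M 3 ^ 2 + G b y M 4 ^ 2) +
      748 * (G b y M 5 ^ 2 + G b y M 6 ^ 2) + 266 * (G b y M 7 ^ 2 + G b y M 8 ^ 2) +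
      62 * (G b y M 9 ^ 2 + G b y M 10 ^ 2) := by
    simp only [sum_range_succ, sum_range_zero]
    rw [h0, h1, h2, h3, h4, h5, h6, h7, h8, h9, h10]
    push_cast
    ring
  linarith

end

section
variable {b : ℕ} {y : ℝ} (hb : 2 ≤ b) (hy0 : 0 < y) (hy1 : y < 1) (hirr : Irrational y)
  {τ D : ℝ} {d : ℕ → ℝ} (hd0 : ∀ m, 0 ≤ d m) (hd : ∀ m, τ - d m ≤ T b y m)

include hb hy0 hy1 hirr hd0 hd in
lemma F_freq {M : ℕ} (hM : 0 < M) (hD : ∑ m ∈ range (80 * M), d m ≤ D) (t : ℕ) (ht : t < 5) :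
    ‖F b y (80 * M) (Complex.exp (Complex.I *
      (((t + 1) * (2 * Real.pi / (80 * M : ℕ)) : ℝ) : ℂ)))‖ ^ 2 ≤ Er2 b y τ D (80 * M) := by
  have hpi := Real.pi_pos
  have hpi2 := Real.pi_lt_d2
  have hMR : (1 : ℝ) ≤ M := by exact_mod_cast hM
  have ht' : (t : ℝ) + 1 ≤ 5 := by
    have : (t : ℝ) ≤ 4 := by exact_mod_cast (by omega : t ≤ 4)
    linarith
  have ht0 : (0 : ℝ) ≤ t := Nat.cast_nonneg _
  have hn : ((80 * M : ℕ) : ℝ) ≠ 0 := by
    have : (0 : ℝ) < ((80 * M : ℕ) : ℝ) := by push_cast; linarith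
    exact this.ne'
  have hn0 : (0 : ℝ) < ((80 * M : ℕ) : ℝ) := by push_cast; linarith
  have e : (t + 1) * (2 * Real.pi / (80 * M : ℕ)) * ((80 * M : ℕ) : ℝ) = (t + 1) * (2 * Real.pi) := by
    field_simp
  have h5 : ((t : ℝ) + 1) * (2 * Real.pi) ≤ 5 * (2 * 3.15) :=
    mul_le_mul ht' (by linarith) (by linarith) (by norm_num)
  refine F_bound2 hb hy0 hy1 hirr hd0 hd hD (by positivity) ?_ ⟨t + 1, ?_⟩ ?_ (by omega)
  · rw [← mul_div_assoc, div_lt_iff₀ hn0]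
    push_cast
    nlinarith
  · rw [e]; push_cast; ring
  · rw [e]; linarith

include hb hy0 hy1 hirr hd0 hd in
/-- the main inequality when `n` is a multiple of 80 -/
theorem main80 {M : ℕ} (hM : 0 < M) (hτ : 0 ≤ τ) (hD : ∑ m ∈ range (80 * M), d m ≤ D) :
    11 * ((b : ℝ) - 1) * τ * ((80 * M : ℕ) : ℝ) ≤
      10 * (K b y (80 * M) : ℝ) ^ 2 + 40 * ((b : ℝ) - 1) * D + 400 * b * (K b y (80 * M) + 1) +
        10 * ((b : ℝ) - 1) * τ := by
  have hbR : (2 : ℝ) ≤ b := by exact_mod_cast hb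
  have hK : (0 : ℝ) ≤ K b y (80 * M) := Nat.cast_nonneg _
  have hD0 : 0 ≤ D := (sum_nonneg fun m _ => hd0 m).trans hD
  have hn0 : (0 : ℝ) ≤ ((80 * M : ℕ) : ℝ) := Nat.cast_nonneg _
  have w1 := weighted_lower hb hy0 hy1 hirr hd0 hd hD (by omega) (ph M) 7
    (fun m hm => (ph_bd hM hm).1) (fun m hm => (ph_bd hM hm).2) (fun m hm => ph_diff hM hm)
  have w2 := ph_sum hM
  have w3 := form_ge (b := b) (y := y) hM
  have w4 := form_le (b := b) (y := y) M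
  rw [G_zero hM] at w4
  have w5 : ∑ m ∈ range (80 * M + 1), (r b y m : ℝ) * L Wr M m =
      1000000000000 * ∑ m ∈ range (80 * M + 1), (r b y m : ℝ) * ph M m := by
    rw [mul_sum]
    refine sum_congr rfl fun m _ => ?_
    unfold ph
    ring
  rw [w5] at w3
  set E0 := Er2 b y τ D (80 * M) with hE0
  have g0 := G_pair (b := b) (y := y) hM 0 (by norm_num) (β := 41 / 10000) (by norm_num)
    (F_freq hb hy0 hy1 hirr hd0 hd hM hD 0 (by norm_num))
  have g1 := G_pair (b := b) (y := y) hM 1 (by norm_num) (β := 151 / 10000) (by norm_num)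
    (F_freq hb hy0 hy1 hirr hd0 hd hM hD 1 (by norm_num))
  have g2 := G_pair (b := b) (y := y) hM 2 (by norm_num) (β := 334 / 10000) (by norm_num)
    (F_freq hb hy0 hy1 hirr hd0 hd hM hD 2 (by norm_num))
  have g3 := G_pair (b := b) (y := y) hM 3 (by norm_num) (β := 590 / 10000) (by norm_num)
    (F_freq hb hy0 hy1 hirr hd0 hd hM hD 3 (by norm_num))
  have g4 := G_pair (b := b) (y := y) hM 4 (by norm_num) (β := 919 / 10000) (by norm_num)
    (F_freq hb hy0 hy1 hirr hd0 hd hM hD 4 (by norm_num))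
  rw [← hE0] at g0 g1 g2 g3 g4
  norm_num at g0 g1 g2 g3 g4
  set k2 : ℝ := (K b y (80 * M) : ℝ) ^ 2 with hk2
  have hk0 : 0 ≤ k2 := by positivity
  -- the upper bound
  have u1 : ∑ m ∈ range (80 * M + 1), (r b y m : ℝ) * ph M m ≤
      0.45348 * k2 + 0.55558449 * E0 := by
    linarith
  have hbτ : 0 ≤ ((b : ℝ) - 1) * τ := mul_nonneg (by linarith) hτ
  have w6 := mul_le_mul_of_nonneg_left w2 hbτ
  have hbD : 0 ≤ ((b : ℝ) - 1) * D := mul_nonneg (by linarith) hD0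
  have e1 : E0 = k2 - ((b : ℝ) - 1) * τ * ((80 * M : ℕ) : ℝ) + 2 * (((b : ℝ) - 1) * D) +
      (32 * b + 2) * (K b y (80 * M) + 1) := by
    rw [hE0, hk2]; unfold Er2; ring
  rw [e1] at u1
  have hbK : 2 * ((K b y (80 * M) : ℝ) + 1) ≤ b * (K b y (80 * M) + 1) :=
    mul_le_mul_of_nonneg_right hbR (by linarith)
  have hbn : 0 ≤ ((b : ℝ) - 1) * τ * ((80 * M : ℕ) : ℝ) := mul_nonneg hbτ hn0
  nlinarith

include hb hy0 hy1 hirr hd0 hd in
/-- the main inequality -/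
theorem main11 {n : ℕ} (hn : 80 ≤ n) (hτ : 0 ≤ τ) (hD : ∑ m ∈ range n, d m ≤ D) :
    11 * ((b : ℝ) - 1) * τ * n ≤
      10 * (K b y n : ℝ) ^ 2 + 40 * ((b : ℝ) - 1) * D + 400 * b * (K b y n + 1) +
        900 * ((b : ℝ) - 1) * τ := by
  have hbR : (2 : ℝ) ≤ b := by exact_mod_cast hb
  have hM : 0 < n / 80 := by omega
  have hle : 80 * (n / 80) ≤ n := by omega
  have hge : n ≤ 80 * (n / 80) + 80 := by omega
  have hD' : ∑ m ∈ range (80 * (n / 80)), d m ≤ D :=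
    (sum_le_sum_of_subset_of_nonneg (range_mono hle) fun m _ _ => hd0 m).trans hD
  have h := main80 hb hy0 hy1 hirr hd0 hd hM hτ hD'
  have hK : (K b y (80 * (n / 80)) : ℝ) ≤ K b y n := by exact_mod_cast K_mono hle
  have hK0 : (0 : ℝ) ≤ K b y (80 * (n / 80)) := Nat.cast_nonneg _
  have hK2 : (K b y (80 * (n / 80)) : ℝ) ^ 2 ≤ (K b y n : ℝ) ^ 2 := pow_le_pow_left₀ hK0 hK 2
  have hbτ : 0 ≤ ((b : ℝ) - 1) * τ := mul_nonneg (by linarith) hτ
  have hge' : (n : ℝ) ≤ ((80 * (n / 80) : ℕ) : ℝ) + 80 := by exact_mod_cast hge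
  have h1 := mul_le_mul_of_nonneg_left hge' hbτ
  have h2 : (b : ℝ) * (K b y (80 * (n / 80)) + 1) ≤ b * (K b y n + 1) :=
    mul_le_mul_of_nonneg_left (by linarith) (by linarith)
  linarith

end

end Pool.Agent.TH665.Roh
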