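import Pool.Agent.TH665.Roh.Main
import Pool.Agent.H820R3.DG.Quad

/-!
# Digit sums of quadratic irrationals
-/

set_option autoImplicit false
set_option linter.unusedSectionVars false

open Finset

namespace Pool.Agent.TH665.Roh

open Pool.Agent.H394R2.Ones Pool.Agent.H820R3.DG

/-- digit sums of quadratic irrationals in `(0, 1)` -/
theorem quad_main {b : ℕ} {y : ℝ} (hb : 2 ≤ b) (hy0 : 0 < y) (hy1 : y < 1) (hirr : Irrational y)
    {A B C : ℤ} (hA : 0 < A) (hq : (A : ℝ) * y ^ 2 + B * y + C = 0) (ε : ℝ) (hε : 0 < ε) :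
    ∃ n0 : ℕ, ∀ n : ℕ, n0 ≤ n →
      (Real.sqrt (11 * ((b : ℝ) - 1) * (Int.gcd b (2 * A) : ℕ) / (10 * A)) - ε) * Real.sqrt n ≤
        K b y n := by
  have hbR : (2 : ℝ) ≤ b := by exact_mod_cast hb
  have hAR : (1 : ℝ) ≤ A := by exact_mod_cast hA
  have halg : IsAlgebraic ℚ y := by
    refine ⟨Polynomial.C (A : ℚ) * Polynomial.X ^ 2 + Polynomial.C (B : ℚ) * Polynomial.X +
      Polynomial.C (C : ℚ), ?_, ?_⟩
    · intro h
      have h1 := congrArg (fun p => Polynomial.coeff p 2) h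
      simp only [Polynomial.coeff_add, Polynomial.coeff_C_mul, Polynomial.coeff_X_pow,
        Polynomial.coeff_X, Polynomial.coeff_C, Polynomial.coeff_zero] at h1
      norm_num at h1
      omega
    · simp only [map_add, map_mul, map_pow, Polynomial.aeval_X, Polynomial.aeval_C]
      simpa using hq
  set g : ℕ := Int.gcd b (2 * A) with hg
  set τ : ℝ := (g : ℝ) / A with hτ
  have hτ0 : 0 ≤ τ := by positivity
  set κ : ℝ := Real.sqrt (11 * ((b : ℝ) - 1) * g / (10 * A)) with hκ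
  have hκ0 : 0 ≤ κ := Real.sqrt_nonneg _
  have hκ2 : κ ^ 2 = 11 * ((b : ℝ) - 1) * τ / 10 := by
    rw [hκ, Real.sq_sqrt (by
      apply div_nonneg _ (by linarith)
      apply mul_nonneg (by linarith) (Nat.cast_nonneg _)), hτ]
    field_simp
  -- the parameter
  set δ : ℝ := min (1 / 8) (ε / (8 * (κ + 1))) with hδ
  have hδ0 : 0 < δ := by positivity
  have hδ1 : δ ≤ 1 / 8 := min_le_left _ _
  have hδ2 : δ * (8 * (κ + 1)) ≤ ε := by
    rw [← le_div_iff₀ (by positivity)]; exact min_le_right _ _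
  obtain ⟨C1, hC10, hC1⟩ := bad_count hb hy0 hy1 halg hirr |(B : ℝ)| δ hδ0 (by linarith)
  have hB0 : 0 ≤ |(B : ℝ)| := abs_nonneg _
  set C2 : ℝ := |(B : ℝ)| + 2 * τ + τ * C1 + τ with hC2
  have hC20 : 0 ≤ C2 := by positivity
  set C3 : ℝ := 40 * ((b : ℝ) - 1) * C2 + 400 * b + 900 * ((b : ℝ) - 1) * τ with hC3
  have hC30 : 0 ≤ C3 := by
    have : 0 ≤ (b : ℝ) - 1 := by linarith
    positivity
  set C4 : ℝ := C3 / 10 + 1 with hC4
  have hC40 : 1 ≤ C4 := by rw [hC4]; linarith [div_nonneg hC30 (by norm_num : (0 : ℝ) ≤ 10)]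
  obtain ⟨n1, hn1⟩ := exists_nat_ge ((2 * C4 / ε) ^ 2)
  refine ⟨max 80 n1, fun n hn => ?_⟩
  have hn80 : 80 ≤ n := (le_max_left _ _).trans hn
  have hnn1 : n1 ≤ n := (le_max_right _ _).trans hn
  have hK : (0 : ℝ) ≤ K b y n := Nat.cast_nonneg _
  have hn0 : (0 : ℝ) ≤ n := Nat.cast_nonneg _
  have hD : ∑ m ∈ range n, dd b y τ |(B : ℝ)| m ≤ C2 * (K b y n + 1) + τ * δ * n := by
    unfold dd
    rw [sum_add_distrib, sum_add_distrib, sum_add_distrib, ← mul_sum, ← mul_sum, ← mul_sum,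
      sum_add_distrib]
    have h1 := ep_sum (b := b) hb hy0 hy1 n
    have h2 : (∑ m ∈ range n, (x b y m : ℝ)) ≤ K b y n := by
      unfold K
      exact_mod_cast sum_le_sum_of_subset (range_mono (Nat.le_succ n))
    have h3 : (∑ m ∈ range n, (exc b y m : ℝ)) ≤ K b y n := by
      exact_mod_cast exc_sum b y n
    have h4 : (∑ m ∈ range n, (if T b y m ≤ |(B : ℝ)| * ep b y m then (1 : ℝ) else 0)) ≤
        C1 * (K b y n + 1) + δ * n := by
      have h5 := hC1 n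
      rw [card_filter] at h5
      push_cast at h5
      exact h5
    have h5 := few_sum 0 n τ hτ0
    rw [Nat.cast_zero, zero_add, mul_one] at h5
    have h6 := mul_le_mul_of_nonneg_left h1 hB0
    have h7 := mul_le_mul_of_nonneg_left (add_le_add h2 h3) hτ0
    have h8 := mul_le_mul_of_nonneg_left h4 hτ0
    have h9 : 0 ≤ τ * K b y n := mul_nonneg hτ0 hK
    have e : C2 * ((K b y n : ℝ) + 1) = |(B : ℝ)| * (K b y n + 1) + 2 * (τ * K b y n) + 2 * τ +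
        τ * (C1 * (K b y n + 1)) + τ * K b y n + τ := by rw [hC2]; ring
    rw [e]
    linarith
  have hmain := main11 hb hy0 hy1 hirr (τ := τ) (n := n)
    (fun m => dd_nonneg hy0 hτ0 hB0 m) (fun m => T_lower' hb hy0 hy1 hirr hA hq m) hn80 hτ0 hD
  have h1 : κ ^ 2 * (1 - 4 * δ) * n ≤ (K b y n + C4) ^ 2 := by
    have e0 : 0 ≤ ((b : ℝ) - 1) * τ := mul_nonneg (by linarith) hτ0
    have e1 : 10 * (κ ^ 2 * (1 - 4 * δ) * n) ≤ 10 * (K b y n : ℝ) ^ 2 + C3 * (K b y n + 1) := by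
      have f1 : 10 * (κ ^ 2 * (1 - 4 * δ) * n) =
          11 * ((b : ℝ) - 1) * τ * n - 44 * (((b : ℝ) - 1) * τ) * (δ * n) := by
        rw [hκ2]; ring
      have f2 : 40 * (((b : ℝ) - 1) * τ) * (δ * n) ≤ 44 * (((b : ℝ) - 1) * τ) * (δ * n) := by
        have : 0 ≤ (((b : ℝ) - 1) * τ) * (δ * n) := mul_nonneg e0 (mul_nonneg hδ0.le hn0)
        linarith
      have f3 : 900 * ((b : ℝ) - 1) * τ ≤ 900 * ((b : ℝ) - 1) * τ * (K b y n + 1) := by
        have : 0 ≤ ((b : ℝ) - 1) * τ * K b y n := mul_nonneg e0 hK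
        linarith
      have f4 : 40 * ((b : ℝ) - 1) * (C2 * (K b y n + 1) + τ * δ * n) =
          40 * ((b : ℝ) - 1) * C2 * (K b y n + 1) + 40 * (((b : ℝ) - 1) * τ) * (δ * n) := by ring
      rw [f4] at hmain
      rw [f1, hC3]
      linarith
    have e2 : C3 * (K b y n + 1) ≤ 10 * (C4 * (K b y n + 1)) := by
      have : C3 ≤ 10 * C4 := by rw [hC4]; linarith
      have f5 := mul_le_mul_of_nonneg_right this (by linarith : (0 : ℝ) ≤ K b y n + 1)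
      linarith
    have e3 : 0 ≤ C4 * K b y n := mul_nonneg (by linarith) hK
    have e4 : 0 ≤ C4 * (C4 - 1) := mul_nonneg (by linarith) (by linarith)
    have e5 : ((K b y n : ℝ) + C4) ^ 2 = (K b y n : ℝ) ^ 2 + C4 * (K b y n + 1) + C4 * K b y n +
        C4 * (C4 - 1) := by ring
    rw [e5]
    linarith
  have h2 : κ * (1 - 4 * δ) * Real.sqrt n ≤ K b y n + C4 := by
    apply le_of_sq_le_sq _ (by linarith)
    have e1 : (κ * (1 - 4 * δ) * Real.sqrt n) ^ 2 = κ ^ 2 * (1 - 4 * δ) ^ 2 * n := by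
      rw [mul_pow, mul_pow, Real.sq_sqrt hn0]
    rw [e1]
    refine le_trans ?_ h1
    apply mul_le_mul_of_nonneg_right _ hn0
    apply mul_le_mul_of_nonneg_left _ (sq_nonneg _)
    have f1 := mul_nonneg (by linarith : (0 : ℝ) ≤ 1 - 4 * δ) (by linarith : (0 : ℝ) ≤ 4 * δ)
    have f2 : (1 - 4 * δ) ^ 2 = (1 - 4 * δ) - (1 - 4 * δ) * (4 * δ) := by ring
    rw [f2]
    linarith
  have hs0 := Real.sqrt_nonneg (n : ℝ)
  have h3 : 2 * C4 / ε ≤ Real.sqrt n := by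
    apply Real.le_sqrt_of_sq_le
    exact hn1.trans (by exact_mod_cast hnn1)
  rw [div_le_iff₀ hε] at h3
  have h4 : κ * (4 * δ) * Real.sqrt n ≤ ε / 2 * Real.sqrt n := by
    apply mul_le_mul_of_nonneg_right _ hs0
    have f1 : δ * (8 * (κ + 1)) = 2 * (κ * (4 * δ)) + 8 * δ := by ring
    linarith
  have e5 : (κ - ε) * Real.sqrt n = κ * (1 - 4 * δ) * Real.sqrt n + κ * (4 * δ) * Real.sqrt n -
      ε * Real.sqrt n := by ring
  rw [e5]
  linarith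

/-- digit sums of real quadratic irrationals -/
theorem quad_real {b : ℕ} (hb : 2 ≤ b) {A B C : ℤ} (hA : 0 < A) {ξ : ℝ} (hirr : Irrational ξ)
    (hq : (A : ℝ) * ξ ^ 2 + B * ξ + C = 0) (ε : ℝ) (hε : 0 < ε) :
    ∃ n0 : ℕ, ∀ n : ℕ, n0 ≤ n →
      (Real.sqrt (11 * ((b : ℝ) - 1) * (Int.gcd b (2 * A) : ℕ) / (10 * A)) - ε) * Real.sqrt n ≤
        ((∑ k ∈ range n, ⌊ξ * (b : ℝ) ^ (k + 1)⌋ % (b : ℤ) : ℤ) : ℝ) := by
  set y : ℝ := Int.fract ξ with hy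
  have hξ : ξ = ⌊ξ⌋ + y := (Int.floor_add_fract ξ).symm
  have hyirr : Irrational y := by
    have : y = ξ - (⌊ξ⌋ : ℤ) := rfl
    rw [this]
    exact hirr.sub_intCast _
  have hy0 : 0 < y := lt_of_le_of_ne (Int.fract_nonneg ξ) (Ne.symm hyirr.ne_zero)
  have hy1 : y < 1 := Int.fract_lt_one ξ
  have hq' : (A : ℝ) * y ^ 2 + ((B + 2 * A * ⌊ξ⌋ : ℤ) : ℝ) * y +
      ((C + B * ⌊ξ⌋ + A * ⌊ξ⌋ ^ 2 : ℤ) : ℝ) = 0 := by
    have h1 : (A : ℝ) * (⌊ξ⌋ + y) ^ 2 + B * (⌊ξ⌋ + y) + C = 0 := by rw [← hξ]; exact hq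
    push_cast
    linarith
  obtain ⟨n0, hn0⟩ := quad_main hb hy0 hy1 hyirr hA hq' ε hε
  refine ⟨n0, fun n hn => (hn0 n hn).trans (le_of_eq ?_)⟩
  have hdig : ∀ k : ℕ, ⌊ξ * (b : ℝ) ^ (k + 1)⌋ % (b : ℤ) = (x b y (k + 1) : ℤ) := by
    intro k
    have h1 : ξ * (b : ℝ) ^ (k + 1) = ((⌊ξ⌋ * (b : ℤ) ^ (k + 1) : ℤ) : ℝ) +
        y * (b : ℝ) ^ (k + 1) := by
      nth_rewrite 1 [hξ]
      push_cast
      ring
    rw [h1, Int.floor_intCast_add]
    unfold x Pool.Agent.H394R2.Ones.B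
    push_cast
    rw [Int.natCast_floor_eq_floor (by positivity)]
    rw [show ⌊ξ⌋ * (b : ℤ) ^ (k + 1) + ⌊y * (b : ℝ) ^ (k + 1)⌋ =
      ⌊y * (b : ℝ) ^ (k + 1)⌋ + (b : ℤ) * (⌊ξ⌋ * (b : ℤ) ^ k) by ring, Int.add_mul_emod_self_left]
  simp only [hdig]
  unfold K
  rw [sum_range_succ']
  rw [x_zero hy0 hy1, add_zero]
  push_cast
  rfl

end Pool.Agent.TH665.Roh
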