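import Pool.Agent.TH665.Roh.Kernel

/-!
# Sums and differences of the interpolated test function
-/

set_option autoImplicit false
set_option maxRecDepth 100000

open Finset

namespace Pool.Agent.TH665.Roh

lemma L_of_rep (f : ℕ → ℝ) {M a i s : ℕ} (hM : 0 < M) (hs : s ≤ M) (ha : a = M * i + s) :
    L f M a = (1 - (s : ℝ) / M) * f i + (s : ℝ) / M * f (i + 1) := by
  have hMR : (0 : ℝ) < M := by exact_mod_cast hM
  rcases hs.lt_or_eq with h | h
  · have h1 : a / M = i := by
      rw [ha, Nat.mul_add_div hM, Nat.div_eq_of_lt h, add_zero]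
    have h2 : a % M = s := by
      rw [ha, Nat.mul_add_mod, Nat.mod_eq_of_lt h]
    unfold L
    rw [h1, h2]
  · have h3 : a = M * (i + 1) := by rw [ha, h]; ring
    have h1 : a / M = i + 1 := by rw [h3]; exact Nat.mul_div_cancel_left _ hM
    have h2 : a % M = 0 := by rw [h3]; exact Nat.mul_mod_right _ _
    unfold L
    rw [h1, h2, h, div_self hMR.ne']
    push_cast
    ring

lemma L_diff (f : ℕ → ℝ) {M m : ℕ} (hM : 0 < M) :
    L f M (m + 1) - L f M m = (f (m / M + 1) - f (m / M)) / M := by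
  have hMR : (0 : ℝ) < M := by exact_mod_cast hM
  have h := (Nat.div_add_mod m M).symm
  have h1 : m + 1 = M * (m / M) + (m % M + 1) := by omega
  have h2 := Nat.mod_lt m hM
  rw [L_of_rep f hM (by omega : m % M + 1 ≤ M) h1, L_of_rep f hM h2.le h]
  push_cast
  field_simp
  ring

lemma L_block (f : ℕ → ℝ) {M : ℕ} (hM : 0 < M) (i : ℕ) :
    ∑ s ∈ range M, L f M (M * i + s) = M * f i + (f (i + 1) - f i) * (((M : ℝ) - 1) / 2) := by
  have hMR : (0 : ℝ) < M := by exact_mod_cast hM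
  have h1 : ∀ s ∈ range M, L f M (M * i + s) = f i + (f (i + 1) - f i) / M * (s : ℝ) := by
    intro s hs
    rw [L_of_rep f hM (mem_range.mp hs).le rfl]
    field_simp
    ring
  rw [sum_congr rfl h1, sum_add_distrib, ← mul_sum, sum_const, card_range, nsmul_eq_mul]
  have h2 : (∑ s ∈ range M, (s : ℝ)) = (M : ℝ) * ((M : ℝ) - 1) / 2 := by
    have h3 := Finset.sum_range_id_mul_two M
    have h4 : (((∑ s ∈ range M, s) * 2 : ℕ) : ℝ) = ((M * (M - 1) : ℕ) : ℝ) := by rw [h3]
    rw [Nat.cast_mul, Nat.cast_sum, Nat.cast_mul, Nat.cast_sub hM] at h4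
    push_cast at h4
    linarith
  rw [h2]
  field_simp

lemma L_sum (f : ℕ → ℝ) {M : ℕ} (hM : 0 < M) (k : ℕ) :
    ∑ m ∈ range (k * M), L f M m =
      M * ((∑ i ∈ range k, (f i + f (i + 1))) / 2) - (f k - f 0) / 2 := by
  induction k with
  | zero => simp
  | succ k ih =>
    rw [show (k + 1) * M = k * M + M by ring, sum_range_add, ih, sum_range_succ]
    have h := L_block f hM k
    rw [show M * k = k * M by ring] at h
    rw [h]
    ring

lemma Wn_bd : ∀ k < 81, 0 ≤ Wn k ∧ Wn k ≤ 1000000000000 := by decide +kernel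

lemma Wn_diff : ∀ k < 80, |Wn (k + 1) - Wn k| ≤ 80000000000 := by decide +kernel

lemma Wn_sum : ∑ i ∈ range 80, (Wn i + Wn (i + 1)) = 88976200000000 := by decide +kernel

lemma Wn_ends : Wn 80 - Wn 0 = 2102000000 := by decide +kernel

/-- the test function -/
noncomputable def ph (M m : ℕ) : ℝ := L Wr M m / 1000000000000

lemma ph_bd {M m : ℕ} (hM : 0 < M) (hm : m ≤ 80 * M) : 0 ≤ ph M m ∧ ph M m ≤ 1 := by
  obtain ⟨i, θ, hi, h0, h1, -, hL⟩ := L_rep hM hm
  unfold ph
  rw [hL]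
  have a := Wn_bd i (by omega)
  have b := Wn_bd (i + 1) (by omega)
  have a1 : (0 : ℝ) ≤ Wr i := by unfold Wr; exact_mod_cast a.1
  have a2 : Wr i ≤ 1000000000000 := by unfold Wr; exact_mod_cast a.2
  have b1 : (0 : ℝ) ≤ Wr (i + 1) := by unfold Wr; exact_mod_cast b.1
  have b2 : Wr (i + 1) ≤ 1000000000000 := by unfold Wr; exact_mod_cast b.2
  have c1 : 0 ≤ 1 - θ := by linarith
  constructor
  · positivity
  · rw [div_le_one (by norm_num)]
    have d1 := mul_le_mul_of_nonneg_left a2 c1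
    have d2 := mul_le_mul_of_nonneg_left b2 h0
    linarith

lemma ph_diff {M m : ℕ} (hM : 0 < M) (hm : m < 80 * M) :
    |ph M (m + 1) - ph M m| * ((80 * M : ℕ) : ℝ) ≤ 7 := by
  have hMR : (0 : ℝ) < M := by exact_mod_cast hM
  have hk : m / M < 80 := Nat.div_lt_of_lt_mul (by linarith)
  have h := Wn_diff (m / M) hk
  have h' : |Wr (m / M + 1) - Wr (m / M)| ≤ 80000000000 := by
    unfold Wr; exact_mod_cast h
  have e : ph M (m + 1) - ph M m = (Wr (m / M + 1) - Wr (m / M)) / M / 1000000000000 := by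
    unfold ph
    rw [← sub_div, L_diff Wr hM]
  rw [e, abs_div, abs_div, abs_of_pos hMR, abs_of_pos (by norm_num : (0 : ℝ) < 1000000000000)]
  push_cast
  rw [div_div, div_mul_eq_mul_div, div_le_iff₀ (by positivity)]
  nlinarith

lemma ph_sum {M : ℕ} (hM : 0 < M) :
    556101 / 1000000 * ((80 * M : ℕ) : ℝ) - 1 / 900 ≤ ∑ m ∈ range (80 * M), ph M m := by
  unfold ph
  rw [← sum_div, L_sum Wr hM 80]
  have h1 : ∑ i ∈ range 80, (Wr i + Wr (i + 1)) = 88976200000000 := by
    unfold Wr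
    exact_mod_cast Wn_sum
  have h2 : Wr 80 - Wr 0 = 2102000000 := by
    unfold Wr
    exact_mod_cast Wn_ends
  rw [h1, h2]
  have hMR : (0 : ℝ) < M := by exact_mod_cast hM
  push_cast
  linarith

end Pool.Agent.TH665.Roh
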