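import Pool.Agent.TH665.Roh.Tables

/-!
# The trigonometric entries of the tables
-/

set_option autoImplicit false
set_option maxRecDepth 100000

namespace Pool.Agent.TH665.Roh

lemma sq_bounds {c lo hi q : ℝ} (h0 : 0 ≤ c) (hhi : 0 ≤ hi) (hc : c ^ 2 = q)
    (h1 : lo ^ 2 ≤ q) (h2 : q ≤ hi ^ 2) : lo ≤ c ∧ c ≤ hi := by
  constructor
  · by_contra h
    push Not at h
    nlinarith
  · by_contra h
    push Not at h
    nlinarith

lemma cos5 : 0.80901699437494 ≤ Real.cos (Real.pi / 5) ∧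
    Real.cos (Real.pi / 5) ≤ 0.80901699437495 := by
  rw [Real.cos_pi_div_five]
  have h := sq_bounds (c := Real.sqrt 5) (lo := 2.23606797749978) (hi := 2.23606797749979) (q := 5)
    (Real.sqrt_nonneg _) (by norm_num) (Real.sq_sqrt (by norm_num)) (by norm_num)
    (by norm_num)
  constructor <;> linarith [h.1, h.2]

lemma cos_half_pos {n : ℝ} (hn : 2 ≤ n) : 0 ≤ Real.cos (Real.pi / n) := by
  apply Real.cos_nonneg_of_neg_pi_div_two_le_of_le
  · have := Real.pi_pos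
    have : 0 ≤ Real.pi / n := by positivity
    linarith
  · apply div_le_div_of_nonneg_left Real.pi_pos.le (by norm_num) hn

lemma cos10 : 0.951056516295 ≤ Real.cos (Real.pi / 10) ∧
    Real.cos (Real.pi / 10) ≤ 0.951056516296 := by
  have h := cos5
  have e : Real.cos (Real.pi / 10) ^ 2 = 1 / 2 + Real.cos (Real.pi / 5) / 2 := by
    rw [Real.cos_sq]; congr 3; ring
  refine sq_bounds (cos_half_pos (by norm_num)) (by norm_num) rfl ?_ ?_
  · rw [e]; linarith [h.1]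
  · rw [e]; linarith [h.2]

lemma cos20 : 0.987688340595 ≤ Real.cos (Real.pi / 20) ∧
    Real.cos (Real.pi / 20) ≤ 0.987688340596 := by
  have h := cos10
  have e : Real.cos (Real.pi / 20) ^ 2 = 1 / 2 + Real.cos (Real.pi / 10) / 2 := by
    rw [Real.cos_sq]; congr 3; ring
  refine sq_bounds (cos_half_pos (by norm_num)) (by norm_num) rfl ?_ ?_
  · rw [e]; linarith [h.1]
  · rw [e]; linarith [h.2]

lemma cos40 : 0.996917333733 ≤ Real.cos (Real.pi / 40) ∧
    Real.cos (Real.pi / 40) ≤ 0.996917333734 := by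
  have h := cos20
  have e : Real.cos (Real.pi / 40) ^ 2 = 1 / 2 + Real.cos (Real.pi / 20) / 2 := by
    rw [Real.cos_sq]; congr 3; ring
  refine sq_bounds (cos_half_pos (by norm_num)) (by norm_num) rfl ?_ ?_
  · rw [e]; linarith [h.1]
  · rw [e]; linarith [h.2]

lemma sin40 : 0.0784590956 ≤ Real.sin (Real.pi / 40) ∧
    Real.sin (Real.pi / 40) ≤ 0.0784590958 := by
  have h := cos40
  have e : Real.sin (Real.pi / 40) ^ 2 = 1 - Real.cos (Real.pi / 40) ^ 2 := Real.sin_sq _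
  have hs : 0 ≤ Real.sin (Real.pi / 40) := by
    apply Real.sin_nonneg_of_nonneg_of_le_pi
    · have := Real.pi_pos; positivity
    · have := Real.pi_pos; linarith
  refine sq_bounds hs (by norm_num) rfl ?_ ?_
  · rw [e]; nlinarith [h.1, h.2]
  · rw [e]; nlinarith [h.1, h.2]

/-- entries -/
def a9 (i : ℕ) : ℤ := A9.getD i 0
/-- entries -/
def b9 (i : ℕ) : ℤ := B9.getD i 0

lemma rec_chk : ∀ i < 80, |1000000000 * a9 (i + 1) - (a9 i * a9 1 - b9 i * b9 1)| ≤ 2000000000 ∧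
    |1000000000 * b9 (i + 1) - (a9 i * b9 1 + b9 i * a9 1)| ≤ 2000000000 := by
  decide +kernel

lemma start_chk : a9 0 = 1000000000 ∧ b9 0 = 0 ∧ a9 1 = 996917334 ∧ b9 1 = 78459096 := by
  decide +kernel

/-- approximation of `exp (π i / 40) ^ k` -/
noncomputable def Z (i : ℕ) : ℂ := ((a9 i : ℝ) / 1000000000 : ℝ) + ((b9 i : ℝ) / 1000000000 : ℝ) * Complex.I

/-- the root of unity -/
noncomputable def z : ℂ := Complex.exp ((Real.pi / 40 : ℝ) * Complex.I)

lemma norm_z : ‖z‖ = 1 := Complex.norm_exp_ofReal_mul_I _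

lemma z_eq : z = (Real.cos (Real.pi / 40) : ℂ) + (Real.sin (Real.pi / 40) : ℂ) * Complex.I := by
  unfold z
  rw [Complex.exp_mul_I, Complex.ofReal_cos, Complex.ofReal_sin]

lemma norm_le_of {a b e : ℝ} (h1 : |a| ≤ e) (h2 : |b| ≤ e) :
    ‖(a : ℂ) + (b : ℂ) * Complex.I‖ ≤ 3 / 2 * e := by
  have he : 0 ≤ e := (abs_nonneg a).trans h1
  rw [Complex.norm_add_mul_I]
  apply Real.sqrt_le_iff.mpr
  constructor
  · linarith
  · have h3 := sq_le_sq' (by linarith [abs_le.mp h1 |>.1]) (abs_le.mp h1).2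
    have h4 := sq_le_sq' (by linarith [abs_le.mp h2 |>.1]) (abs_le.mp h2).2
    nlinarith

lemma z_one : ‖z - Z 1‖ ≤ 3 / 10 ^ 9 := by
  rw [z_eq]
  unfold Z
  rw [start_chk.2.2.1, start_chk.2.2.2]
  have h1 := cos40
  have h2 := sin40
  have e : (Real.cos (Real.pi / 40) : ℂ) + (Real.sin (Real.pi / 40) : ℂ) * Complex.I -
      ((((996917334 : ℤ) : ℝ) / 1000000000 : ℝ) + ((((78459096 : ℤ) : ℝ) / 1000000000 : ℝ)) * Complex.I) =
      ((Real.cos (Real.pi / 40) - 996917334 / 1000000000 : ℝ) : ℂ) +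
        ((Real.sin (Real.pi / 40) - 78459096 / 1000000000 : ℝ) : ℂ) * Complex.I := by
    push_cast; ring
  rw [e]
  refine (norm_le_of (e := 2 / 10 ^ 9) ?_ ?_).trans (by norm_num)
  · rw [abs_le]; constructor <;> norm_num at h1 ⊢ <;> linarith [h1.1, h1.2]
  · rw [abs_le]; constructor <;> norm_num at h2 ⊢ <;> linarith [h2.1, h2.2]

lemma Z_step (i : ℕ) (hi : i < 80) : ‖Z i * Z 1 - Z (i + 1)‖ ≤ 3 / 10 ^ 9 := by
  have h := rec_chk i hi
  have e : Z i * Z 1 - Z (i + 1) =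
      (((a9 i * a9 1 - b9 i * b9 1) / 10 ^ 18 - a9 (i + 1) / 10 ^ 9 : ℝ) : ℂ) +
      (((a9 i * b9 1 + b9 i * a9 1) / 10 ^ 18 - b9 (i + 1) / 10 ^ 9 : ℝ) : ℂ) * Complex.I := by
    unfold Z
    push_cast
    have := Complex.I_sq
    ring_nf
    rw [this]
    ring
  rw [e]
  have c1 : |(1000000000 * (a9 (i + 1) : ℝ) - (a9 i * a9 1 - b9 i * b9 1))| ≤ 2000000000 := by
    exact_mod_cast h.1
  have c2 : |(1000000000 * (b9 (i + 1) : ℝ) - (a9 i * b9 1 + b9 i * a9 1))| ≤ 2000000000 := by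
    exact_mod_cast h.2
  rw [abs_le] at c1 c2
  refine (norm_le_of (e := 2 / 10 ^ 9) ?_ ?_).trans (by norm_num)
  · rw [abs_le]; constructor <;> linarith [c1.1, c1.2]
  · rw [abs_le]; constructor <;> linarith [c2.1, c2.2]

lemma Z_close (i : ℕ) (hi : i ≤ 80) : ‖z ^ i - Z i‖ ≤ i * (7 / 10 ^ 9) := by
  induction i with
  | zero =>
    have : Z 0 = 1 := by
      unfold Z
      rw [start_chk.1, start_chk.2.1]
      norm_num
    rw [this]; simp
  | succ i ih =>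
    have h1 := ih (by omega)
    have h2 := Z_step i (by omega)
    have h3 := z_one
    have hi' : (i : ℝ) ≤ 80 := by exact_mod_cast (by omega : i ≤ 80)
    have h4 : ‖Z i‖ ≤ 1 + 1 / 10 ^ 6 := by
      have : Z i = z ^ i - (z ^ i - Z i) := by ring
      rw [this]
      refine (norm_sub_le _ _).trans ?_
      rw [norm_pow, norm_z, one_pow]
      nlinarith
    have e : z ^ (i + 1) - Z (i + 1) = z * (z ^ i - Z i) + Z i * (z - Z 1) + (Z i * Z 1 - Z (i + 1)) := by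
      ring
    rw [e]
    have h5 : ‖z * (z ^ i - Z i)‖ ≤ i * (7 / 10 ^ 9) := by
      rw [norm_mul, norm_z, one_mul]; exact h1
    have h6 : ‖Z i * (z - Z 1)‖ ≤ (1 + 1 / 10 ^ 6) * (3 / 10 ^ 9) := by
      rw [norm_mul]
      exact mul_le_mul h4 h3 (norm_nonneg _) (by norm_num)
    have h7 := norm_add₃_le (a := z * (z ^ i - Z i)) (b := Z i * (z - Z 1)) (c := Z i * Z 1 - Z (i + 1))
    have h8 : (1 + 1 / 10 ^ 6) * (3 / 10 ^ 9) ≤ (4 / 10 ^ 9 : ℝ) := by norm_num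
    have h9 : ((i + 1 : ℕ) : ℝ) * (7 / 10 ^ 9) = i * (7 / 10 ^ 9) + 4 / 10 ^ 9 + 3 / 10 ^ 9 := by
      push_cast; ring
    rw [h9]
    exact h7.trans (add_le_add (add_le_add h5 (h6.trans h8)) h2)

lemma abs_le_of_norm {a b e : ℝ} (h : ‖(a : ℂ) + (b : ℂ) * Complex.I‖ ≤ e) :
    |a| ≤ e ∧ |b| ≤ e := by
  rw [Complex.norm_add_mul_I] at h
  exact ⟨(Real.abs_le_sqrt (by nlinarith [sq_nonneg b])).trans h,
    (Real.abs_le_sqrt (by nlinarith [sq_nonneg a])).trans h⟩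

lemma z_pow (i : ℕ) : z ^ i = (Real.cos (i * (Real.pi / 40)) : ℂ) +
    (Real.sin (i * (Real.pi / 40)) : ℂ) * Complex.I := by
  unfold z
  rw [← Complex.exp_nat_mul]
  have : (i : ℂ) * ((Real.pi / 40 : ℝ) * Complex.I) = ((i * (Real.pi / 40) : ℝ) : ℂ) * Complex.I := by
    push_cast; ring
  rw [this, Complex.exp_mul_I, Complex.ofReal_cos, Complex.ofReal_sin]

lemma node_close (i : ℕ) (hi : i ≤ 80) :
    |Real.cos (i * (Real.pi / 40)) - a9 i / 10 ^ 9| ≤ 6 / 10 ^ 7 ∧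
    |Real.sin (i * (Real.pi / 40)) - b9 i / 10 ^ 9| ≤ 6 / 10 ^ 7 := by
  have h := Z_close i hi
  have hi' : (i : ℝ) ≤ 80 := by exact_mod_cast hi
  have h' : ‖z ^ i - Z i‖ ≤ 6 / 10 ^ 7 := h.trans (by norm_num; linarith)
  rw [z_pow] at h'
  have e : (Real.cos (i * (Real.pi / 40)) : ℂ) + (Real.sin (i * (Real.pi / 40)) : ℂ) * Complex.I - Z i =
      ((Real.cos (i * (Real.pi / 40)) - a9 i / 10 ^ 9 : ℝ) : ℂ) +
      ((Real.sin (i * (Real.pi / 40)) - b9 i / 10 ^ 9 : ℝ) : ℂ) * Complex.I := by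
    unfold Z; push_cast; ring
  rw [e] at h'
  exact abs_le_of_norm h'

end Pool.Agent.TH665.Roh
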